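import Mathlib

/-!
# Definitions: equations with abelianisation constraints in trace monoids
-/

set_option autoImplicit false

namespace Pool.Agent.W995.TraceEq

/-- the defining relations `a b = b a` with `(a, b) ∈ I` of the trace monoid `M(A, I)`,
where `A = Fin k` -/
def CommRel {k : ℕ} (I : Fin k → Fin k → Prop) (u v : FreeMonoid (Fin k)) : Prop :=
  ∃ a b, I a b ∧ u = FreeMonoid.of a * FreeMonoid.of b ∧ v = FreeMonoid.of b * FreeMonoid.of a

/-- the trace monoid `M(A, I) = A* / ⟨ab = ba : (a, b) ∈ I⟩`, where `A = Fin k` -/
abbrev TraceMonoid {k : ℕ} (I : Fin k → Fin k → Prop) : Type := PresentedMonoid (CommRel I)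

variable {k : ℕ} (I : Fin k → Fin k → Prop)

/-- the letters as elements of the trace monoid -/
def letter (a : Fin k) : TraceMonoid I := PresentedMonoid.of (CommRel I) a

/-- the abelianisation map `π : M(A, I) → ℕ ^ A` as a monoid homomorphism (`ℕ ^ A` written
multiplicatively): the letter `a` is mapped to the unit vector of `a` -/
def countHom : TraceMonoid I →* Multiplicative (Fin k → ℕ) :=
  PresentedMonoid.lift (fun a => Multiplicative.ofAdd (Pi.single a 1)) (by
    rintro u v ⟨a, b, _, rfl, rfl⟩
    simp only [map_mul]
    exact mul_comm _ _)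

/-- the vector of the letter counts `π(m)` -/
def counts (m : TraceMonoid I) : Fin k → ℕ := Multiplicative.toAdd (countHom I m)

/-- the value in `M(A, I)` of a word over the letters and the variables `x₀, x₁, …` when the
variables are given the values `f` -/
def wordValue (f : ℕ → TraceMonoid I) (w : List (Fin k ⊕ ℕ)) : TraceMonoid I :=
  (w.map (Sum.elim (letter I) f)).prod

/-- the value in `ℕ ^ A` of a sum of constants from `ℕ ^ A` and variables when the
variables are given the values `g` -/
def sumValue (g : ℕ → Fin k → ℕ) (w : List ((Fin k → ℕ) ⊕ ℕ)) : Fin k → ℕ :=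
  (w.map (Sum.elim id g)).sum

/-- a finite system `S.1` of equations over `M(A, I)` and a finite system `S.2` of equations over
`ℕ ^ A`; an equation is given by its two sides -/
abbrev System (k : ℕ) : Type :=
  List (List (Fin k ⊕ ℕ) × List (Fin k ⊕ ℕ)) ×
    List (List ((Fin k → ℕ) ⊕ ℕ) × List ((Fin k → ℕ) ⊕ ℕ))

/-- some values `f` of the variables solve the system over `M(A, I)`, and the vectors `π(f i)`
solve the system over `ℕ ^ A` -/
def Solvable (S : System k) : Prop :=
  ∃ f : ℕ → TraceMonoid I, (∀ e ∈ S.1, wordValue I f e.1 = wordValue I f e.2) ∧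
    (∀ e ∈ S.2, sumValue (fun i => counts I (f i)) e.1 = sumValue (fun i => counts I (f i)) e.2)

end Pool.Agent.W995.TraceEq
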