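import Mathlib

set_option autoImplicit false

/-! Small solutions of systems of linear equations over the natural numbers. -/

namespace Pool.Agent.W995.TM.Lin

open Finset

/-- the growth of the parameters in one elimination step -/
def Q (N : ℕ) : ℕ := (N + 2) ^ 5

theorem Q_ge (N : ℕ) : N ^ 5 + N ^ 3 + 2 * N ^ 2 + 2 * N + 1 ≤ Q N := by
  unfold Q
  nlinarith [sq_nonneg (N : ℤ), Nat.zero_le (N ^ 4), Nat.zero_le (N ^ 3), Nat.zero_le (N ^ 2)]

theorem le_Q (N : ℕ) : N ≤ Q N := by
  have := Q_ge N
  nlinarith [Nat.zero_le (N ^ 5), Nat.zero_le (N ^ 3), Nat.zero_le (N ^ 2)]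

section Elim

variable {ι : Type} [Fintype ι] [DecidableEq ι]

/-- the homogeneous solutions used in the elimination of an equation -/
def hom (a : ι → ℤ) : ι ⊕ (ι × ι) → ι → ℕ
  | Sum.inl i => if a i = 0 then Pi.single i 1 else 0
  | Sum.inr (i, j) => if 0 < a i ∧ a j < 0 then
      Pi.single i (a j).natAbs + Pi.single j (a i).natAbs else 0

theorem hom_solves (a : ι → ℤ) (g : ι ⊕ (ι × ι)) : ∑ i, a i * (hom a g i : ℤ) = 0 := by
  rcases g with i | ⟨i, j⟩
  · simp only [hom]
    split_ifs with h
    · rw [Finset.sum_eq_single i]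
      · rw [h]; simp
      · intro b _ hb
        rw [Pi.single_eq_of_ne hb]; simp
      · simp
    · simp
  · simp only [hom]
    split_ifs with h
    · have hij : i ≠ j := by rintro rfl; omega
      have e1 : ∑ l, a l * ((Pi.single i (a j).natAbs : ι → ℕ) l : ℤ) = a i * (a j).natAbs := by
        rw [Finset.sum_eq_single i]
        · simp
        · intro b _ hb
          rw [Pi.single_eq_of_ne hb]; simp
        · simp
      have e2 : ∑ l, a l * ((Pi.single j (a i).natAbs : ι → ℕ) l : ℤ) = a j * (a i).natAbs := by
        rw [Finset.sum_eq_single j]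
        · simp
        · intro b _ hb
          rw [Pi.single_eq_of_ne hb]; simp
        · simp
      have e3 : ∀ l, a l * (((Pi.single i (a j).natAbs + Pi.single j (a i).natAbs : ι → ℕ) l : ℕ) : ℤ)
          = a l * ((Pi.single i (a j).natAbs : ι → ℕ) l : ℤ) +
            a l * ((Pi.single j (a i).natAbs : ι → ℕ) l : ℤ) := by
        intro l
        rw [Pi.add_apply]; push_cast; ring
      rw [Finset.sum_congr rfl (fun l _ => e3 l), Finset.sum_add_distrib, e1, e2]
      have h1 : ((a j).natAbs : ℤ) = - a j := by omega
      have h2 : ((a i).natAbs : ℤ) = a i := by omega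
      rw [h1, h2]; ring
    · simp

omit [Fintype ι] in
theorem hom_le (a : ι → ℤ) {N : ℕ} (ha : ∀ i, |a i| ≤ N) (hN : 1 ≤ N) (g : ι ⊕ (ι × ι)) (l : ι) :
    hom a g l ≤ N := by
  rcases g with i | ⟨i, j⟩
  · simp only [hom]
    split_ifs with h
    · by_cases hl : l = i
      · subst hl; simpa using hN
      · rw [Pi.single_eq_of_ne hl]; omega
    · simp
  · simp only [hom]
    split_ifs with h
    · have hij : i ≠ j := by rintro rfl; omega
      have hi := ha i
      have hj := ha j
      rw [abs_le] at hi hj
      rw [Pi.add_apply]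
      by_cases hl : l = i
      · subst hl
        rw [Pi.single_eq_same, Pi.single_eq_of_ne hij]; omega
      · rw [Pi.single_eq_of_ne hl]
        by_cases hl' : l = j
        · subst hl'
          rw [Pi.single_eq_same]; omega
        · rw [Pi.single_eq_of_ne hl']; omega
    · simp

theorem elim (a : ι → ℤ) (b : ℤ) {N : ℕ} (hι : Fintype.card ι ≤ N) (ha : ∀ i, |a i| ≤ N)
    (hb : |b| ≤ N) : ∀ (s : ℕ) (x : ι → ℕ), ∑ i, x i ≤ s → ∑ i, a i * (x i : ℤ) = b →
      ∃ (p : ι → ℕ) (c : ι ⊕ (ι × ι) → ℕ), (∀ i, p i ≤ N ^ 3 + N) ∧ ∑ i, a i * (p i : ℤ) = b ∧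
        ∀ i, x i = p i + ∑ g, c g * hom a g i := by
  intro s
  induction s with
  | zero =>
    intro x hs hx
    refine ⟨x, 0, ?_, hx, fun i => by simp⟩
    intro i
    have h1 : x i ≤ ∑ i, x i := Finset.single_le_sum (fun _ _ => Nat.zero_le _) (Finset.mem_univ i)
    omega
  | succ s ih =>
    intro x hs hx
    -- a general reduction step
    have step : ∀ g : ι ⊕ (ι × ι), (∀ i, hom a g i ≤ x i) → (∃ i, hom a g i ≠ 0) →
        ∃ (p : ι → ℕ) (c : ι ⊕ (ι × ι) → ℕ), (∀ i, p i ≤ N ^ 3 + N) ∧
          ∑ i, a i * (p i : ℤ) = b ∧ ∀ i, x i = p i + ∑ g, c g * hom a g i := by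
      intro g hg ⟨i₀, hi₀⟩
      obtain ⟨p, c, h1, h2, h3⟩ := ih (fun i => x i - hom a g i) (by
        have h4 : ∑ i, (x i - hom a g i) + ∑ i, hom a g i = ∑ i, x i := by
          rw [← Finset.sum_add_distrib]
          exact Finset.sum_congr rfl (fun i _ => Nat.sub_add_cancel (hg i))
        have h5 : hom a g i₀ ≤ ∑ i, hom a g i :=
          Finset.single_le_sum (fun _ _ => Nat.zero_le _) (Finset.mem_univ i₀)
        omega) (by
        have h4 : ∀ i, a i * ((x i - hom a g i : ℕ) : ℤ) = a i * (x i : ℤ) - a i * (hom a g i : ℤ) := by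
          intro i
          rw [Nat.cast_sub (hg i)]; ring
        rw [Finset.sum_congr rfl (fun i _ => h4 i), Finset.sum_sub_distrib, hom_solves, hx, sub_zero])
      refine ⟨p, fun g' => c g' + if g' = g then 1 else 0, h1, h2, ?_⟩
      intro i
      have h6 := h3 i
      have h7 : ∑ g', (c g' + if g' = g then 1 else 0) * hom a g' i =
          (∑ g', c g' * hom a g' i) + hom a g i := by
        rw [Finset.sum_congr rfl (fun g' _ => add_mul _ _ _), Finset.sum_add_distrib]
        congr 1
        rw [Finset.sum_eq_single g]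
        · simp
        · intro g' _ hg'
          simp [hg']
        · simp
      rw [h7]
      have := hg i
      omega
    by_cases h0 : ∃ i, a i = 0 ∧ 1 ≤ x i
    · obtain ⟨i, hi, hxi⟩ := h0
      refine step (Sum.inl i) ?_ ⟨i, by simp [hom, hi]⟩
      intro l
      simp only [hom, hi, if_true]
      by_cases hl : l = i
      · subst hl; simpa using hxi
      · rw [Pi.single_eq_of_ne hl]; omega
    by_cases h1 : ∃ i j, 0 < a i ∧ a j < 0 ∧ (a j).natAbs ≤ x i ∧ (a i).natAbs ≤ x j
    · obtain ⟨i, j, hi, hj, hxi, hxj⟩ := h1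
      have hij : i ≠ j := by rintro rfl; omega
      refine step (Sum.inr (i, j)) ?_ ⟨i, ?_⟩
      · intro l
        simp only [hom, hi, hj, and_self, if_true, Pi.add_apply]
        by_cases hl : l = i
        · subst hl
          rw [Pi.single_eq_same, Pi.single_eq_of_ne hij]; omega
        · rw [Pi.single_eq_of_ne hl]
          by_cases hl' : l = j
          · subst hl'
            rw [Pi.single_eq_same]; omega
          · rw [Pi.single_eq_of_ne hl']; omega
      · simp only [hom, hi, hj, and_self, if_true, Pi.add_apply]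
        rw [Pi.single_eq_same]
        omega
    · -- no reduction is possible
      refine ⟨x, 0, ?_, hx, fun i => by simp⟩
      push Not at h0 h1
      have hz : ∀ i, a i = 0 → x i = 0 := fun i hi => by
        have := h0 i hi; omega
      have hN2 : ∀ i : ι, 1 ≤ N := fun i => le_trans (Fintype.card_pos_iff.2 ⟨i⟩) hι
      by_cases hpos : ∀ i, 0 < a i → x i < N
      · intro j
        by_cases hj : a j < 0
        · have h2 : -(a j) * (x j : ℤ) = ∑ i ∈ univ.erase j, a i * (x i : ℤ) - b := by
            rw [← hx, ← Finset.add_sum_erase univ _ (Finset.mem_univ j)]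
            ring
          have h3 : ∑ i ∈ univ.erase j, a i * (x i : ℤ) ≤ ∑ i ∈ univ.erase j, ((N : ℤ) * N) := by
            apply Finset.sum_le_sum
            intro i _
            rcases lt_trichotomy (a i) 0 with h | h | h
            · have : a i * (x i : ℤ) ≤ 0 := mul_nonpos_of_nonpos_of_nonneg h.le (by positivity)
              nlinarith [sq_nonneg (N : ℤ)]
            · rw [h]; nlinarith [sq_nonneg (N : ℤ)]
            · have h4 := hpos i h
              have h5 := ha i
              rw [abs_le] at h5
              have h6 : (x i : ℤ) ≤ N := by exact_mod_cast h4.le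
              exact mul_le_mul h5.2 h6 (by positivity) (by positivity)
          rw [Finset.sum_const, nsmul_eq_mul] at h3
          have h4 : ((univ.erase j).card : ℤ) ≤ N := by
            have : (univ.erase j).card ≤ Fintype.card ι := Finset.card_le_univ _
            exact_mod_cast this.trans hι
          have h5 : (x j : ℤ) ≤ -(a j) * (x j : ℤ) := by nlinarith [Nat.zero_le (x j)]
          have h6 : -b ≤ N := by rw [abs_le] at hb; linarith [hb.1]
          have h7 : ((univ.erase j).card : ℤ) * (N * N) ≤ N * (N * N) :=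
            mul_le_mul_of_nonneg_right h4 (by positivity)
          have h8 : (x j : ℤ) ≤ N * (N * N) + N := by linarith
          have h9 : (x j : ℤ) ≤ ((N ^ 3 + N : ℕ) : ℤ) := by push_cast; linarith [h8, (by ring : (N:ℤ) * (N * N) = N ^ 3)]
          exact_mod_cast h9
        · have h2 : x j ≤ N := by
            rcases lt_trichotomy (a j) 0 with h | h | h
            · exact absurd h hj
            · rw [hz j h]; omega
            · exact (hpos j h).le
          exact h2.trans (by omega)
      · push Not at hpos
        obtain ⟨i₀, hi₀, hxi₀⟩ := hpos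
        have hneg : ∀ j, a j < 0 → x j < N := by
          intro j hj
          have h2 := h1 i₀ j hi₀ hj (by
            have := ha j
            rw [abs_le] at this
            omega)
          have h3 := ha i₀
          rw [abs_le] at h3
          omega
        intro j
        by_cases hj : 0 < a j
        · have h2 : (a j) * (x j : ℤ) = b - ∑ i ∈ univ.erase j, a i * (x i : ℤ) := by
            rw [← hx, ← Finset.add_sum_erase univ _ (Finset.mem_univ j)]
            ring
          have h3 : ∑ i ∈ univ.erase j, (-((N : ℤ) * N)) ≤ ∑ i ∈ univ.erase j, a i * (x i : ℤ) := by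
            apply Finset.sum_le_sum
            intro i _
            rcases lt_trichotomy (a i) 0 with h | h | h
            · have h4 := hneg i h
              have h5 := ha i
              rw [abs_le] at h5
              have h6 : (x i : ℤ) ≤ N := by exact_mod_cast h4.le
              have : (-(a i)) * (x i : ℤ) ≤ N * N := mul_le_mul (by linarith [h5.1]) h6 (by positivity) (by positivity)
              linarith
            · rw [h]; nlinarith [sq_nonneg (N : ℤ)]
            · have : 0 ≤ a i * (x i : ℤ) := by positivity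
              nlinarith [sq_nonneg (N : ℤ)]
          rw [Finset.sum_const, nsmul_eq_mul] at h3
          have h4 : ((univ.erase j).card : ℤ) ≤ N := by
            have : (univ.erase j).card ≤ Fintype.card ι := Finset.card_le_univ _
            exact_mod_cast this.trans hι
          have h5 : (x j : ℤ) ≤ (a j) * (x j : ℤ) := by nlinarith [Nat.zero_le (x j)]
          have h6 : b ≤ N := by rw [abs_le] at hb; linarith [hb.2]
          have h7 : ((univ.erase j).card : ℤ) * (N * N) ≤ N * (N * N) :=
            mul_le_mul_of_nonneg_right h4 (by positivity)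
          have h8 : (x j : ℤ) ≤ N * (N * N) + N := by linarith
          have h9 : (x j : ℤ) ≤ ((N ^ 3 + N : ℕ) : ℤ) := by push_cast; linarith [h8, (by ring : (N:ℤ) * (N * N) = N ^ 3)]
          exact_mod_cast h9
        · have h2 : x j ≤ N := by
            rcases lt_trichotomy (a j) 0 with h | h | h
            · exact (hneg j h).le
            · rw [hz j h]; omega
            · exact absurd h hj
          exact h2.trans (by omega)

end Elim

/-- bound on the size of the smallest solution -/
def Bd (m N : ℕ) : ℕ := (Q^[m] N + 1) ^ (3 * m)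

theorem le_iter (m N : ℕ) : N ≤ Q^[m] N := by
  induction m generalizing N with
  | zero => exact le_rfl
  | succ m ih =>
    rw [Function.iterate_succ_apply]
    exact (le_Q N).trans (ih _)

theorem Bd_step (m N : ℕ) : Q N + Q N * Q N * Bd m (Q N) ≤ Bd (m + 1) N := by
  unfold Bd
  rw [Function.iterate_succ_apply]
  set M := Q^[m] (Q N) with hM
  have h1 : Q N ≤ M := le_iter m (Q N)
  have h2 : 1 ≤ (M + 1) ^ (3 * m) := Nat.one_le_pow _ _ (by omega)
  set K := (M + 1) ^ (3 * m) with hK
  have h3 : (M + 1) ^ (3 * (m + 1)) = (M + 1) ^ 3 * K := by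
    rw [hK, ← pow_add]; congr 1; ring
  rw [h3]
  calc Q N + Q N * Q N * K ≤ M * K + M * M * K := by
        apply Nat.add_le_add
        · calc Q N ≤ M := h1
            _ = M * 1 := (mul_one M).symm
            _ ≤ M * K := Nat.mul_le_mul_left _ h2
        · exact Nat.mul_le_mul_right _ (Nat.mul_le_mul h1 h1)
    _ = (M + M * M) * K := by ring
    _ ≤ (M + 1) ^ 3 * K := by
        apply Nat.mul_le_mul_right
        nlinarith [Nat.zero_le (M ^ 3), Nat.zero_le (M ^ 2)]

theorem small_solution : ∀ (m : ℕ) (ι : Type) (_ : Fintype ι) (N : ℕ) (E : List ((ι → ℤ) × ℤ)),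
    E.length = m → Fintype.card ι ≤ N → (∀ e ∈ E, (∀ i, |e.1 i| ≤ N) ∧ |e.2| ≤ N) →
    (∃ x : ι → ℕ, ∀ e ∈ E, ∑ i, e.1 i * (x i : ℤ) = e.2) →
    ∃ x : ι → ℕ, (∀ i, x i ≤ Bd m N) ∧ ∀ e ∈ E, ∑ i, e.1 i * (x i : ℤ) = e.2 := by
  intro m
  induction m with
  | zero =>
    intro ι _ N E hE hι hN _
    have : E = [] := List.length_eq_zero_iff.1 hE
    subst this
    exact ⟨fun _ => 0, fun _ => Nat.zero_le _, by simp⟩
  | succ m ih =>
    intro ι _ N E hE hι hN ⟨x, hx⟩
    classical
    by_cases hne : IsEmpty ι
    · exact ⟨x, fun i => hne.elim i, hx⟩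
    rw [not_isEmpty_iff] at hne
    have hN1 : 1 ≤ N := le_trans (Fintype.card_pos_iff.2 hne) hι
    obtain ⟨e₀, E', rfl⟩ : ∃ e E', E = e :: E' := by
      cases E with
      | nil => simp at hE
      | cons e E' => exact ⟨e, E', rfl⟩
    have h0 := hN e₀ (by simp)
    obtain ⟨p, c, hp, hps, hpc⟩ := elim e₀.1 e₀.2 hι h0.1 h0.2 _ x le_rfl (hx e₀ (by simp))
    -- the new system
    let F : ((ι → ℤ) × ℤ) → ((ι ⊕ (ι × ι) → ℤ) × ℤ) := fun e =>
      (fun g => ∑ i, e.1 i * (hom e₀.1 g i : ℤ), e.2 - ∑ i, e.1 i * (p i : ℤ))
    have conv : ∀ (e : (ι → ℤ) × ℤ) (d : ι ⊕ (ι × ι) → ℕ),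
        (∑ g, (F e).1 g * (d g : ℤ) = (F e).2 ↔
          ∑ i, e.1 i * ((p i + ∑ g, d g * hom e₀.1 g i : ℕ) : ℤ) = e.2) := by
      intro e d
      have e1 : ∑ g, (F e).1 g * (d g : ℤ) =
          ∑ i, e.1 i * ((∑ g, d g * hom e₀.1 g i : ℕ) : ℤ) := by
        simp only [F]
        calc ∑ g, (∑ i, e.1 i * (hom e₀.1 g i : ℤ)) * (d g : ℤ)
            = ∑ g, ∑ i, e.1 i * ((d g : ℤ) * (hom e₀.1 g i : ℤ)) := by
              apply Finset.sum_congr rfl
              intro g _
              rw [Finset.sum_mul]
              exact Finset.sum_congr rfl (fun i _ => by ring)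
          _ = ∑ i, ∑ g, e.1 i * ((d g : ℤ) * (hom e₀.1 g i : ℤ)) := Finset.sum_comm
          _ = _ := by
              apply Finset.sum_congr rfl
              intro i _
              rw [← Finset.mul_sum]
              push_cast
              rfl
      have e2 : ∑ i, e.1 i * ((p i + ∑ g, d g * hom e₀.1 g i : ℕ) : ℤ) =
          ∑ i, e.1 i * (p i : ℤ) + ∑ i, e.1 i * ((∑ g, d g * hom e₀.1 g i : ℕ) : ℤ) := by
        rw [← Finset.sum_add_distrib]
        apply Finset.sum_congr rfl
        intro i _
        rw [Nat.cast_add]; ring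
      rw [e1, e2]
      simp only [F]
      constructor <;> intro h <;> linarith
    have hcard : Fintype.card (ι ⊕ (ι × ι)) ≤ Q N := by
      rw [Fintype.card_sum, Fintype.card_prod]
      have h1 : Fintype.card ι * Fintype.card ι ≤ N * N := Nat.mul_le_mul hι hι
      have h2 := Q_ge N
      nlinarith [Nat.zero_le (N ^ 5), Nat.zero_le (N ^ 3), Nat.zero_le (N ^ 2)]
    have hsum : ∀ (e : (ι → ℤ)) (y : ι → ℕ) (B : ℕ), (∀ i, |e i| ≤ N) → (∀ i, y i ≤ B) →
        |∑ i, e i * (y i : ℤ)| ≤ N * (N * B) := by
      intro e y B he hy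
      calc |∑ i, e i * (y i : ℤ)| ≤ ∑ i, |e i * (y i : ℤ)| := Finset.abs_sum_le_sum_abs _ _
        _ ≤ ∑ _i : ι, ((N : ℤ) * B) := by
            apply Finset.sum_le_sum
            intro i _
            rw [abs_mul]
            apply mul_le_mul (he i) _ (abs_nonneg _) (by positivity)
            rw [abs_of_nonneg (by positivity)]
            exact_mod_cast hy i
        _ = (Fintype.card ι : ℤ) * (N * B) := by simp
        _ ≤ N * (N * B) := by
            apply mul_le_mul_of_nonneg_right _ (by positivity)
            exact_mod_cast hι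
    have hQ2 : (∀ g e, e ∈ E' → |(F e).1 g| ≤ Q N) ∧ (∀ e ∈ E', |(F e).2| ≤ Q N) := by
      constructor
      · intro g e he
        rcases g with i | ⟨i, j⟩
        · have hcase : |(F e).1 (Sum.inl i)| ≤ N := by
            simp only [F, hom]
            split_ifs with h
            · rw [Finset.sum_eq_single i]
              · simpa using (hN e (by simp [he])).1 i
              · intro b _ hb
                rw [Pi.single_eq_of_ne hb]; simp
              · simp
            · simp
          exact hcase.trans (by exact_mod_cast le_Q N)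
        · have hcase : |(F e).1 (Sum.inr (i, j))| ≤ 2 * (N * N) := by
            simp only [F, hom]
            split_ifs with h
            · have e1 : ∑ l, e.1 l * ((Pi.single i (e₀.1 j).natAbs : ι → ℕ) l : ℤ) =
                  e.1 i * (e₀.1 j).natAbs := by
                rw [Finset.sum_eq_single i]
                · simp
                · intro b _ hb
                  rw [Pi.single_eq_of_ne hb]; simp
                · simp
              have e2 : ∑ l, e.1 l * ((Pi.single j (e₀.1 i).natAbs : ι → ℕ) l : ℤ) =
                  e.1 j * (e₀.1 i).natAbs := by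
                rw [Finset.sum_eq_single j]
                · simp
                · intro b _ hb
                  rw [Pi.single_eq_of_ne hb]; simp
                · simp
              have e3 : ∀ l, e.1 l * (((Pi.single i (e₀.1 j).natAbs +
                  Pi.single j (e₀.1 i).natAbs : ι → ℕ) l : ℕ) : ℤ)
                  = e.1 l * ((Pi.single i (e₀.1 j).natAbs : ι → ℕ) l : ℤ) +
                    e.1 l * ((Pi.single j (e₀.1 i).natAbs : ι → ℕ) l : ℤ) := by
                intro l
                rw [Pi.add_apply]; push_cast; ring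
              rw [Finset.sum_congr rfl (fun l _ => e3 l), Finset.sum_add_distrib, e1, e2]
              have b1 : |e.1 i * ((e₀.1 j).natAbs : ℤ)| ≤ N * N := by
                rw [abs_mul]
                apply mul_le_mul ((hN e (by simp [he])).1 i) _ (abs_nonneg _) (by positivity)
                rw [Int.natCast_natAbs, abs_abs]
                exact h0.1 j
              have b2 : |e.1 j * ((e₀.1 i).natAbs : ℤ)| ≤ N * N := by
                rw [abs_mul]
                apply mul_le_mul ((hN e (by simp [he])).1 j) _ (abs_nonneg _) (by positivity)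
                rw [Int.natCast_natAbs, abs_abs]
                exact h0.1 i
              calc _ ≤ |e.1 i * ((e₀.1 j).natAbs : ℤ)| + |e.1 j * ((e₀.1 i).natAbs : ℤ)| :=
                    abs_add_le _ _
                _ ≤ _ := by linarith
            · simp only [Pi.zero_apply, Nat.cast_zero, mul_zero, Finset.sum_const_zero, abs_zero]
              positivity
          refine hcase.trans ?_
          have h2 := Q_ge N
          have h3 : 2 * (N * N) ≤ Q N := by
            nlinarith [Nat.zero_le (N ^ 5), Nat.zero_le (N ^ 3), Nat.zero_le (N ^ 2)]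
          exact_mod_cast h3
      · intro e he
        simp only [F]
        have b1 := hsum e.1 p (N ^ 3 + N) (hN e (by simp [he])).1 hp
        have b2 := (hN e (by simp [he])).2
        calc |e.2 - ∑ i, e.1 i * (p i : ℤ)| ≤ |e.2| + |∑ i, e.1 i * (p i : ℤ)| := abs_sub _ _
          _ ≤ N + N * (N * ((N ^ 3 + N : ℕ) : ℤ)) := add_le_add b2 b1
          _ ≤ Q N := by
            have h2 := Q_ge N
            have h3 : N + N * (N * (N ^ 3 + N)) ≤ Q N := by
              calc N + N * (N * (N ^ 3 + N)) = N ^ 5 + N ^ 3 + N := by ring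
                _ ≤ _ := by nlinarith [Nat.zero_le (N ^ 2)]
            exact_mod_cast h3
    obtain ⟨d, hd, hd2⟩ := ih (ι ⊕ (ι × ι)) inferInstance (Q N) (E'.map F) (by
      simpa using hE) hcard (by
      intro e he
      rw [List.mem_map] at he
      obtain ⟨e', he', rfl⟩ := he
      exact ⟨fun g => hQ2.1 g e' he', hQ2.2 e' he'⟩) ⟨c, by
        intro e he
        rw [List.mem_map] at he
        obtain ⟨e', he', rfl⟩ := he
        rw [conv]
        have : ∀ i, (p i + ∑ g, c g * hom e₀.1 g i : ℕ) = x i := fun i => (hpc i).symm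
        simp only [this]
        exact hx e' (by simp [he'])⟩
    refine ⟨fun i => p i + ∑ g, d g * hom e₀.1 g i, ?_, ?_⟩
    · intro i
      refine le_trans ?_ (Bd_step m N)
      apply Nat.add_le_add
      · refine (hp i).trans ?_
        have h2 := Q_ge N
        nlinarith [Nat.zero_le (N ^ 5), Nat.zero_le (N ^ 3), Nat.zero_le (N ^ 2)]
      · calc ∑ g, d g * hom e₀.1 g i ≤ ∑ _g : ι ⊕ (ι × ι), Bd m (Q N) * Q N := by
              apply Finset.sum_le_sum
              intro g _
              exact Nat.mul_le_mul (hd g) ((hom_le e₀.1 h0.1 hN1 g i).trans (le_Q N))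
          _ = Fintype.card (ι ⊕ (ι × ι)) * (Bd m (Q N) * Q N) := by simp
          _ ≤ Q N * (Bd m (Q N) * Q N) := Nat.mul_le_mul_right _ hcard
          _ = _ := by ring
    · intro e he
      rw [List.mem_cons] at he
      rcases he with rfl | he
      · have : ∀ d : ι ⊕ (ι × ι) → ℕ,
            ∑ i, e.1 i * ((p i + ∑ g, d g * hom e.1 g i : ℕ) : ℤ) = e.2 := by
          intro d
          rw [← conv]
          simp only [F]
          rw [hps, sub_self]
          apply Finset.sum_eq_zero
          intro g _
          rw [hom_solves, zero_mul]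
        exact this d
      · exact (conv e d).1 (hd2 _ (List.mem_map_of_mem he))

end Pool.Agent.W995.TM.Lin
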