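import Mathlib
import Pool.Agent.W995.TM.LinBound

set_option autoImplicit false

/-! Solvability of finite systems of linear equations over the natural numbers is decidable. -/

namespace Pool.Agent.W995.TM.Lin

open Finset

/-- one side of an equation: a list of variables and a constant -/
abbrev Side : Type := List ℕ × ℕ

def sideVal (x : ℕ → ℕ) (s : Side) : ℕ := (s.1.map x).sum + s.2

def LinSolv (E : List (Side × Side)) : Prop :=
  ∃ x : ℕ → ℕ, ∀ e ∈ E, sideVal x e.1 = sideVal x e.2

/-- the size of a system -/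
def sizeS (s : Side) : ℕ := (s.1.map Nat.succ).sum + s.2

def size (E : List (Side × Side)) : ℕ := (E.map (fun e => sizeS e.1 + sizeS e.2)).sum

theorem size_le (E : List (Side × Side)) (e : Side × Side) (he : e ∈ E) :
    sizeS e.1 + sizeS e.2 ≤ size E := by
  unfold size
  exact List.single_le_sum (fun _ _ => Nat.zero_le _) _ (List.mem_map_of_mem (f := fun e : Side × Side => sizeS e.1 + sizeS e.2) he)

theorem mem_lt (s : Side) (i : ℕ) (hi : i ∈ s.1) : i < sizeS s := by
  have h1 : i + 1 ≤ (s.1.map Nat.succ).sum :=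
    List.single_le_sum (fun _ _ => Nat.zero_le _) _ (List.mem_map_of_mem (f := Nat.succ) hi)
  unfold sizeS
  omega

theorem length_le (s : Side) : s.1.length ≤ sizeS s := by
  unfold sizeS
  have : ∀ l : List ℕ, l.length ≤ (l.map Nat.succ).sum := by
    intro l
    induction l with
    | nil => simp
    | cons a l ih => simp only [List.length_cons, List.map_cons, List.sum_cons]; omega
  have := this s.1
  omega

theorem sum_count (N : ℕ) (x : ℕ → ℕ) : ∀ l : List ℕ, (∀ i ∈ l, i < N) →
    (l.map x).sum = ∑ i : Fin N, l.count (i : ℕ) * x i := by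
  intro l
  induction l with
  | nil => intro _; simp
  | cons a l ih =>
    intro h
    have ha : a < N := h a (by simp)
    rw [List.map_cons, List.sum_cons, ih (fun i hi => h i (by simp [hi]))]
    have h2 : ∀ i : Fin N, (a :: l).count (i : ℕ) * x i =
        l.count (i : ℕ) * x i + if i = (⟨a, ha⟩ : Fin N) then x a else 0 := by
      intro i
      by_cases hi : i = (⟨a, ha⟩ : Fin N)
      · subst hi
        simp only [List.count_cons_self, if_true]
        ring
      · have hne : (a : ℕ) ≠ (i : ℕ) := by
          intro h3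
          exact hi (Fin.ext h3.symm)
        rw [List.count_cons_of_ne hne]
        simp [hi]
    rw [Finset.sum_congr rfl (fun i _ => h2 i), Finset.sum_add_distrib]
    rw [Finset.sum_ite_eq' univ (⟨a, ha⟩ : Fin N)]
    simp [add_comm]

/-- the integer equation on the first `N` variables -/
def conv (N : ℕ) (e : Side × Side) : (Fin N → ℤ) × ℤ :=
  (fun i => (e.1.1.count (i : ℕ) : ℤ) - e.2.1.count (i : ℕ), (e.2.2 : ℤ) - e.1.2)

theorem conv_iff (N : ℕ) (e : Side × Side) (h1 : ∀ i ∈ e.1.1, i < N) (h2 : ∀ i ∈ e.2.1, i < N)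
    (x : ℕ → ℕ) : sideVal x e.1 = sideVal x e.2 ↔
      ∑ i : Fin N, (conv N e).1 i * ((x i : ℕ) : ℤ) = (conv N e).2 := by
  unfold sideVal conv
  rw [sum_count N x _ h1, sum_count N x _ h2]
  have h3 : ∑ i : Fin N, ((e.1.1.count (i : ℕ) : ℤ) - e.2.1.count (i : ℕ)) * ((x i : ℕ) : ℤ) =
      ((∑ i : Fin N, e.1.1.count (i : ℕ) * x i : ℕ) : ℤ) -
        ((∑ i : Fin N, e.2.1.count (i : ℕ) * x i : ℕ) : ℤ) := by
    push_cast
    rw [← Finset.sum_sub_distrib]
    exact Finset.sum_congr rfl (fun i _ => by ring)
  simp only [h3]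
  omega

/-- a digit -/
def dig (p : ℕ × ℕ) (i : ℕ) : ℕ := p.1 / p.2 ^ i % p.2

/-- the check of a candidate -/
def Check (e : Side × Side) (p : ℕ × ℕ) : Prop := sideVal (dig p) e.1 = sideVal (dig p) e.2

def bound (E : List (Side × Side)) : ℕ := Bd E.length (size E)

theorem exists_code (B : ℕ) : ∀ (N : ℕ) (x : ℕ → ℕ), (∀ i < N, x i ≤ B) →
    ∃ c < (B + 1) ^ N, ∀ i < N, dig (c, B + 1) i = x i := by
  intro N
  induction N with
  | zero => intro x _; exact ⟨0, by simp, by simp⟩
  | succ N ih =>
    intro x hx
    obtain ⟨c, hc, hc2⟩ := ih (fun i => x (i + 1)) (fun i hi => hx _ (by omega))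
    have h0 := hx 0 (by omega)
    refine ⟨c * (B + 1) + x 0, ?_, ?_⟩
    · calc c * (B + 1) + x 0 < c * (B + 1) + (B + 1) := by omega
        _ = (c + 1) * (B + 1) := by ring
        _ ≤ (B + 1) ^ N * (B + 1) := Nat.mul_le_mul_right _ hc
        _ = _ := (pow_succ _ _).symm
    · intro i hi
      rcases i with _ | i
      · simp only [dig, pow_zero, Nat.div_one]
        rw [Nat.add_comm, Nat.add_mul_mod_self_right]
        exact Nat.mod_eq_of_lt (by omega)
      · have := hc2 i (by omega)
        simp only [dig] at this ⊢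
        rw [pow_succ', ← Nat.div_div_eq_div_mul]
        have h2 : (c * (B + 1) + x 0) / (B + 1) = c := by
          rw [Nat.add_comm, Nat.add_mul_div_right _ _ (by omega), Nat.div_eq_of_lt (by omega), zero_add]
        rw [h2]
        exact this

theorem linSolv_iff (E : List (Side × Side)) :
    LinSolv E ↔ ∃ c < (bound E + 1) ^ size E, ∀ e ∈ E, Check e (c, bound E + 1) := by
  constructor
  · rintro ⟨x, hx⟩
    have hlt1 : ∀ e ∈ E, ∀ i ∈ e.1.1, i < size E := fun e he i hi => by
      have := size_le E e he
      have := mem_lt _ i hi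
      omega
    have hlt2 : ∀ e ∈ E, ∀ i ∈ e.2.1, i < size E := fun e he i hi => by
      have := size_le E e he
      have := mem_lt _ i hi
      omega
    obtain ⟨y, hy, hy2⟩ := small_solution E.length (Fin (size E)) inferInstance (size E)
      (E.map (conv (size E))) (by simp) (by simp) (by
        intro e he
        rw [List.mem_map] at he
        obtain ⟨e', he', rfl⟩ := he
        have h1 := size_le E e' he'
        have h2 := length_le e'.1
        have h3 := length_le e'.2
        constructor
        · intro i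
          have h4 : e'.1.1.count (i : ℕ) ≤ e'.1.1.length := List.count_le_length
          have h5 : e'.2.1.count (i : ℕ) ≤ e'.2.1.length := List.count_le_length
          simp only [conv]
          rw [abs_le]
          omega
        · simp only [conv]
          have h6 : e'.1.2 ≤ sizeS e'.1 := by unfold sizeS; omega
          have h7 : e'.2.2 ≤ sizeS e'.2 := by unfold sizeS; omega
          rw [abs_le]
          omega) ⟨fun i => x i, by
        intro e he
        rw [List.mem_map] at he
        obtain ⟨e', he', rfl⟩ := he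
        exact (conv_iff _ e' (hlt1 e' he') (hlt2 e' he') x).1 (hx e' he')⟩
    let z : ℕ → ℕ := fun i => if h : i < size E then y ⟨i, h⟩ else 0
    obtain ⟨c, hc, hc2⟩ := exists_code (bound E) (size E) z (by
      intro i hi
      simp only [z, hi, dif_pos]
      exact hy _)
    refine ⟨c, hc, ?_⟩
    intro e he
    have h1 : ∀ s : Side, (∀ i ∈ s.1, i < size E) →
        sideVal (dig (c, bound E + 1)) s = sideVal z s := by
      intro s hs
      unfold sideVal
      congr 2
      exact List.map_congr_left (fun i hi => hc2 i (hs i hi))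
    unfold Check
    rw [h1 _ (hlt1 e he), h1 _ (hlt2 e he), conv_iff _ e (hlt1 e he) (hlt2 e he) z]
    have h3 := hy2 _ (List.mem_map_of_mem he)
    rw [← h3]
    apply Finset.sum_congr rfl
    intro i _
    simp [z]
  · rintro ⟨c, _, hc⟩
    exact ⟨_, hc⟩

/-! ### computability -/

theorem primrec_pow : Primrec₂ (fun a b : ℕ => a ^ b) := by
  have h : Primrec₂ (fun (a : ℕ) (b : ℕ) => b.rec (motive := fun _ => ℕ) 1 (fun _ ih => ih * a)) :=
    (Primrec.nat_rec (f := fun _ : ℕ => 1) (g := fun (a : ℕ) (p : ℕ × ℕ) => p.2 * a)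
      (Primrec.const 1) (Primrec.nat_mul.comp (Primrec.snd.comp Primrec.snd) Primrec.fst).to₂)
  refine h.of_eq ?_
  intro a b
  induction b with
  | zero => rfl
  | succ b ih => simp only [pow_succ]; rw [← ih]

theorem primrec_sum : Primrec (fun l : List ℕ => l.sum) := by
  have : Primrec (fun l : List ℕ => l.foldr (fun b s => b + s) 0) :=
    Primrec.list_foldr (f := fun l : List ℕ => l) (g := fun _ => 0)
      (h := fun (_ : List ℕ) (p : ℕ × ℕ) => p.1 + p.2) Primrec.id (Primrec.const 0)
      (Primrec.nat_add.comp (Primrec.fst.comp Primrec.snd) (Primrec.snd.comp Primrec.snd)).to₂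
  exact this

theorem primrec_sizeS : Primrec sizeS :=
  Primrec.nat_add.comp (primrec_sum.comp (Primrec.list_map Primrec.fst
    (Primrec.succ.comp Primrec.snd).to₂)) Primrec.snd

theorem primrec_size : Primrec size :=
  primrec_sum.comp (Primrec.list_map Primrec.id (Primrec.nat_add.comp
    (primrec_sizeS.comp (Primrec.fst.comp Primrec.snd))
    (primrec_sizeS.comp (Primrec.snd.comp Primrec.snd))).to₂)

theorem primrec_Q : Primrec Q :=
  (primrec_pow.comp (Primrec.nat_add.comp Primrec.id (Primrec.const 2)) (Primrec.const 5))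

theorem primrec_bound : Primrec bound := by
  have h : Primrec (fun E : List (Side × Side) => (Q^[E.length] (size E) + 1) ^ (3 * E.length)) :=
    primrec_pow.comp
      (Primrec.succ.comp (Primrec.nat_iterate Primrec.list_length primrec_size
        (primrec_Q.comp Primrec.snd).to₂))
      (Primrec.nat_mul.comp (Primrec.const 3) Primrec.list_length)
  exact h

theorem primrec_dig : Primrec₂ dig :=
  (Primrec.nat_mod.comp (Primrec.nat_div.comp (Primrec.fst.comp Primrec.fst)
    (primrec_pow.comp (Primrec.snd.comp Primrec.fst) Primrec.snd))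
    (Primrec.snd.comp Primrec.fst)).to₂

theorem primrec_sideVal : Primrec (fun p : Side × (ℕ × ℕ) => sideVal (dig p.2) p.1) :=
  Primrec.nat_add.comp (primrec_sum.comp (Primrec.list_map (Primrec.fst.comp Primrec.fst)
    (primrec_dig.comp (Primrec.snd.comp Primrec.fst) Primrec.snd).to₂)) (Primrec.snd.comp Primrec.fst)

theorem primrec_check : PrimrecRel Check := by
  have h1 : Primrec (fun q : (Side × Side) × (ℕ × ℕ) => sideVal (dig q.2) q.1.1) :=
    primrec_sideVal.comp (Primrec.pair (Primrec.fst.comp Primrec.fst) Primrec.snd)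
  have h2 : Primrec (fun q : (Side × Side) × (ℕ × ℕ) => sideVal (dig q.2) q.1.2) :=
    primrec_sideVal.comp (Primrec.pair (Primrec.snd.comp Primrec.fst) Primrec.snd)
  exact Primrec.eq.comp h1 h2

theorem linSolv_computable : ComputablePred LinSolv := by
  have h1 : PrimrecRel (fun (E : List (Side × Side)) (p : ℕ × ℕ) => ∀ e ∈ E, Check e p) :=
    primrec_check.forall_mem_list
  have h2 : PrimrecRel (fun (c : ℕ) (E : List (Side × Side)) => ∀ e ∈ E, Check e (c, bound E + 1)) :=
    h1.comp₂ Primrec₂.right (Primrec₂.pair.comp₂ Primrec₂.left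
      ((Primrec.succ.comp primrec_bound).comp₂ Primrec₂.right))
  have h3 : PrimrecRel (fun (L : List ℕ) (E : List (Side × Side)) =>
      ∃ c ∈ L, ∀ e ∈ E, Check e (c, bound E + 1)) := h2.exists_mem_list
  have h4 : PrimrecPred (fun E : List (Side × Side) =>
      ∃ c ∈ List.range ((bound E + 1) ^ size E), ∀ e ∈ E, Check e (c, bound E + 1)) :=
    h3.comp (Primrec.list_range.comp (primrec_pow.comp (Primrec.succ.comp primrec_bound) primrec_size))
      Primrec.id
  have h5 : PrimrecPred LinSolv := h4.of_eq (fun E => by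
    rw [linSolv_iff]
    simp)
  obtain ⟨hd, hp⟩ := h5
  exact ⟨hd, hp.to_comp⟩

end Pool.Agent.W995.TM.Lin
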