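import Mathlib
import Pool.Agent.Helper844.DPRM

set_option autoImplicit false

/-! Systems of elementary equations over the natural numbers. -/

namespace Pool.Agent.W995.TM

open Pool.Agent.Helper844.Dio

/-- an elementary equation between natural numbers -/
inductive NEq (V : Type) : Type
  | const (i : V) (c : ℕ)
  | add (i j k : V)
  | mul (i j k : V)

def NEq.Holds {V : Type} (x : V → ℕ) : NEq V → Prop
  | .const i c => x i = c
  | .add i j k => x i + x j = x k
  | .mul i j k => x i * x j = x k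

def NEq.map {V W : Type} (f : V → W) : NEq V → NEq W
  | .const i c => .const (f i) c
  | .add i j k => .add (f i) (f j) (f k)
  | .mul i j k => .mul (f i) (f j) (f k)

theorem NEq.holds_map {V W : Type} (f : V → W) (q : NEq V) (x : W → ℕ) :
    (q.map f).Holds x ↔ q.Holds (x ∘ f) := by
  cases q <;> rfl

/-- straight line program for a polynomial, the value being the difference of two variables -/
def Prog {γ : Type} (p : Poly γ) : Prop :=
  ∃ (β : Type) (_ : Finite β) (L : List (NEq (γ ⊕ β))) (o o' : γ ⊕ β),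
    (∀ x : γ ⊕ β → ℕ, (∀ q ∈ L, q.Holds x) → (x o : ℤ) - x o' = p (x ∘ Sum.inl)) ∧
    (∀ v : γ → ℕ, ∃ y : β → ℕ, ∀ q ∈ L, q.Holds (Sum.elim v y))

def in1 {γ β₁ β₂ τ : Type} : γ ⊕ β₁ → γ ⊕ (β₁ ⊕ β₂ ⊕ τ) := Sum.map id Sum.inl
def in2 {γ β₁ β₂ τ : Type} : γ ⊕ β₂ → γ ⊕ (β₁ ⊕ β₂ ⊕ τ) := Sum.map id (Sum.inr ∘ Sum.inl)
def in3 {γ β₁ β₂ τ : Type} : τ → γ ⊕ (β₁ ⊕ β₂ ⊕ τ) := fun t => Sum.inr (Sum.inr (Sum.inr t))

theorem prog_bin {γ : Type} {p₁ p₂ : Poly γ} (h₁ : Prog p₁) (h₂ : Prog p₂) (r : Poly γ)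
    (τ : Type) [Finite τ] (G : ∀ (V : Type) (_ _ _ _ : V) (_ : τ → V), List (NEq V))
    (out out' : τ)
    (hmap : ∀ (V W : Type) (f : V → W) (a a' b b' : V) (t : τ → V),
      (G V a a' b b' t).map (NEq.map f) = G W (f a) (f a') (f b) (f b') (f ∘ t))
    (hs : ∀ (V : Type) (x : V → ℕ) (a a' b b' : V) (t : τ → V), (∀ q ∈ G V a a' b b' t, q.Holds x) →
      ∀ v : γ → ℕ, (x a : ℤ) - x a' = p₁ v → (x b : ℤ) - x b' = p₂ v →
        (x (t out) : ℤ) - x (t out') = r v)
    (hc : ∀ A A' B B' : ℕ, ∃ t : τ → ℕ, ∀ q ∈ G (Fin 4 ⊕ τ) (Sum.inl 0) (Sum.inl 1) (Sum.inl 2)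
      (Sum.inl 3) Sum.inr, q.Holds (Sum.elim ![A, A', B, B'] t)) : Prog r := by
  obtain ⟨β₁, _, L₁, o₁, o₁', s₁, c₁⟩ := h₁
  obtain ⟨β₂, _, L₂, o₂, o₂', s₂, c₂⟩ := h₂
  refine ⟨β₁ ⊕ β₂ ⊕ τ, inferInstance,
    G _ (in1 o₁) (in1 o₁') (in2 o₂) (in2 o₂') in3 ++ (L₁.map (NEq.map in1) ++ L₂.map (NEq.map in2)),
    in3 out, in3 out', ?_, ?_⟩
  · intro x hq
    have hx1 : ∀ q ∈ L₁, q.Holds (x ∘ in1) := fun q h => by
      rw [← NEq.holds_map]
      exact hq _ (List.mem_append_right _ (List.mem_append_left _ (List.mem_map_of_mem h)))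
    have hx2 : ∀ q ∈ L₂, q.Holds (x ∘ in2) := fun q h => by
      rw [← NEq.holds_map]
      exact hq _ (List.mem_append_right _ (List.mem_append_right _ (List.mem_map_of_mem h)))
    have e1 := s₁ _ hx1
    have e2 := s₂ _ hx2
    exact hs _ x _ _ _ _ _ (fun q h => hq q (List.mem_append_left _ h)) (x ∘ Sum.inl) e1 e2
  · intro v
    obtain ⟨y₁, hy₁⟩ := c₁ v
    obtain ⟨y₂, hy₂⟩ := c₂ v
    obtain ⟨t, ht⟩ := hc (Sum.elim v y₁ o₁) (Sum.elim v y₁ o₁') (Sum.elim v y₂ o₂)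
      (Sum.elim v y₂ o₂')
    have e1 : (Sum.elim v (Sum.elim y₁ (Sum.elim y₂ t)) ∘
        (in1 : γ ⊕ β₁ → γ ⊕ (β₁ ⊕ β₂ ⊕ τ))) = Sum.elim v y₁ := by
      funext g; rcases g with g | g <;> rfl
    have e2 : (Sum.elim v (Sum.elim y₁ (Sum.elim y₂ t)) ∘
        (in2 : γ ⊕ β₂ → γ ⊕ (β₁ ⊕ β₂ ⊕ τ))) = Sum.elim v y₂ := by
      funext g; rcases g with g | g <;> rfl
    refine ⟨Sum.elim y₁ (Sum.elim y₂ t), ?_⟩
    intro q hq
    rw [List.mem_append, List.mem_append] at hq
    rcases hq with hq | hq | hq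
    · let F : Fin 4 ⊕ τ → γ ⊕ (β₁ ⊕ β₂ ⊕ τ) :=
        Sum.elim ![in1 o₁, in1 o₁', in2 o₂, in2 o₂'] in3
      have h3 := hmap _ _ F (Sum.inl 0) (Sum.inl 1) (Sum.inl 2) (Sum.inl 3) Sum.inr
      have h4 : G _ (in1 o₁) (in1 o₁') (in2 o₂) (in2 o₂') in3 =
          (G (Fin 4 ⊕ τ) (Sum.inl 0) (Sum.inl 1) (Sum.inl 2) (Sum.inl 3) Sum.inr).map
            (NEq.map F) := by
        rw [h3]; rfl
      rw [h4, List.mem_map] at hq
      obtain ⟨q', hq', rfl⟩ := hq
      rw [NEq.holds_map]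
      have h5 := ht q' hq'
      have h6 : (Sum.elim v (Sum.elim y₁ (Sum.elim y₂ t))) ∘ F =
          Sum.elim ![Sum.elim v y₁ o₁, Sum.elim v y₁ o₁', Sum.elim v y₂ o₂, Sum.elim v y₂ o₂'] t := by
        funext g
        rcases g with g | g
        · fin_cases g
          · exact congrFun e1 o₁
          · exact congrFun e1 o₁'
          · exact congrFun e2 o₂
          · exact congrFun e2 o₂'
        · rfl
      rw [h6]
      exact h5
    · rw [List.mem_map] at hq
      obtain ⟨q', hq', rfl⟩ := hq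
      rw [NEq.holds_map, e1]
      exact hy₁ _ hq'
    · rw [List.mem_map] at hq
      obtain ⟨q', hq', rfl⟩ := hq
      rw [NEq.holds_map, e2]
      exact hy₂ _ hq'

theorem prog_all {γ : Type} (p : Poly γ) : Prog p := by
  refine Poly.induction (C := Prog) ?_ ?_ ?_ ?_ p
  · intro i
    refine ⟨Unit, inferInstance, [.const (Sum.inr ()) 0], Sum.inl i, Sum.inr (), ?_, ?_⟩
    · intro x h
      have h1 : x (Sum.inr ()) = 0 := h _ (List.mem_singleton.2 rfl)
      rw [h1]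
      simp
    · intro v
      refine ⟨fun _ => 0, ?_⟩
      intro q hq
      rw [List.mem_singleton.1 hq]
      rfl
  · intro n
    refine ⟨Bool, inferInstance, [.const (Sum.inr true) n.toNat, .const (Sum.inr false) (-n).toNat],
      Sum.inr true, Sum.inr false, ?_, ?_⟩
    · intro x h
      have h1 : x (Sum.inr true) = n.toNat := h (.const (Sum.inr true) n.toNat) (by simp)
      have h2 : x (Sum.inr false) = (-n).toNat := h (.const (Sum.inr false) (-n).toNat) (by simp)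
      rw [h1, h2, Poly.const_apply]
      omega
    · intro v
      refine ⟨fun c => if c then n.toNat else (-n).toNat, ?_⟩
      intro q hq
      simp only [List.mem_cons, List.not_mem_nil, or_false] at hq
      rcases hq with rfl | rfl
      · simp [NEq.Holds]
      · simp [NEq.Holds]
  · intro p₁ p₂ h₁ h₂
    refine prog_bin h₁ h₂ (p₁ - p₂) (Fin 2)
      (fun V a a' b b' t => [.add a b' (t 0), .add a' b (t 1)]) 0 1 ?_ ?_ ?_
    · intro V W f a a' b b' t; rfl
    · intro V x a a' b b' t hq v ha hb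
      have h1 : x a + x b' = x (t 0) := hq (.add a b' (t 0)) (by simp)
      have h2 : x a' + x b = x (t 1) := hq (.add a' b (t 1)) (by simp)
      rw [Poly.sub_apply, ← ha, ← hb, ← h1, ← h2]
      push_cast
      ring
    · intro A A' B B'
      refine ⟨![A + B', A' + B], ?_⟩
      intro q hq
      simp only [List.mem_cons, List.not_mem_nil, or_false] at hq
      rcases hq with rfl | rfl
      · simp [NEq.Holds]
      · simp [NEq.Holds]
  · intro p₁ p₂ h₁ h₂
    refine prog_bin h₁ h₂ (p₁ * p₂) (Fin 6)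
      (fun V a a' b b' t => [.mul a b (t 0), .mul a' b' (t 1), .add (t 0) (t 1) (t 2),
        .mul a b' (t 3), .mul a' b (t 4), .add (t 3) (t 4) (t 5)]) 2 5 ?_ ?_ ?_
    · intro V W f a a' b b' t; rfl
    · intro V x a a' b b' t hq v ha hb
      have h1 : x a * x b = x (t 0) := hq (.mul a b (t 0)) (by simp)
      have h2 : x a' * x b' = x (t 1) := hq (.mul a' b' (t 1)) (by simp)
      have h3 : x (t 0) + x (t 1) = x (t 2) := hq (.add (t 0) (t 1) (t 2)) (by simp)
      have h4 : x a * x b' = x (t 3) := hq (.mul a b' (t 3)) (by simp)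
      have h5 : x a' * x b = x (t 4) := hq (.mul a' b (t 4)) (by simp)
      have h6 : x (t 3) + x (t 4) = x (t 5) := hq (.add (t 3) (t 4) (t 5)) (by simp)
      rw [Poly.mul_apply, ← ha, ← hb, ← h3, ← h6, ← h1, ← h2, ← h4, ← h5]
      push_cast
      ring
    · intro A A' B B'
      refine ⟨![A * B, A' * B', A * B + A' * B', A * B', A' * B, A * B' + A' * B], ?_⟩
      intro q hq
      simp only [List.mem_cons, List.not_mem_nil, or_false] at hq
      rcases hq with rfl | rfl | rfl | rfl | rfl | rfl <;> simp [NEq.Holds]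

theorem exists_system (S : ℕ → Prop) (hS : Dioph {v : Unit → ℕ | S (v ())}) :
    ∃ (V : Type) (_ : Finite V) (f : V) (L : List (NEq V)), ∀ n : ℕ,
      (∃ x : V → ℕ, x f = n ∧ ∀ q ∈ L, q.Holds x) ↔ S n := by
  obtain ⟨δ, _, p, hp⟩ := finite_dummies hS
  obtain ⟨β, _, L, o, o', sound, compl⟩ := prog_all p
  refine ⟨((Unit ⊕ δ) ⊕ β) ⊕ Unit, inferInstance, Sum.inl (Sum.inl (Sum.inl ())),
    .const (Sum.inr ()) 0 :: .add (Sum.inl o) (Sum.inr ()) (Sum.inl o') :: L.map (NEq.map Sum.inl),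
    ?_⟩
  intro n
  constructor
  · rintro ⟨x, hx, hq⟩
    have h0 : x (Sum.inr ()) = 0 := hq (.const (Sum.inr ()) 0) (by simp)
    have h1 : x (Sum.inl o) + x (Sum.inr ()) = x (Sum.inl o') :=
      hq (.add (Sum.inl o) (Sum.inr ()) (Sum.inl o')) (by simp)
    have h2 : ∀ q ∈ L, q.Holds (x ∘ Sum.inl) := fun q h => by
      rw [← NEq.holds_map]
      exact hq _ (List.mem_cons_of_mem _ (List.mem_cons_of_mem _ (List.mem_map_of_mem h)))
    have h3 := sound _ h2
    simp only [Function.comp] at h3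
    have h4 : p (fun g => x (Sum.inl (Sum.inl g))) = 0 := by
      have : (x (Sum.inl o) : ℤ) - x (Sum.inl o') = 0 := by omega
      rw [← this, h3]
      rfl
    refine (hp (fun _ => n)).2 ⟨fun d => x (Sum.inl (Sum.inl (Sum.inr d))), ?_⟩
    rw [← h4]
    congr 1
    funext g
    rcases g with g | g
    · exact hx.symm
    · rfl
  · intro hn
    obtain ⟨t, ht⟩ := (hp (fun _ => n)).1 hn
    obtain ⟨y, hy⟩ := compl (Sum.elim (fun _ => n) t)
    have h3 := sound _ hy
    refine ⟨Sum.elim (Sum.elim (Sum.elim (fun _ => n) t) y) (fun _ => 0), rfl, ?_⟩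
    intro q hq
    simp only [List.mem_cons, List.mem_map] at hq
    rcases hq with rfl | rfl | ⟨q, hq, rfl⟩
    · rfl
    · have h5 : p (Sum.elim (Sum.elim (fun _ => n) t) y ∘ Sum.inl) = 0 := by
        rw [← ht]
        congr 1
      rw [h5] at h3
      simp only [NEq.Holds, Sum.elim_inl, Sum.elim_inr]
      omega
    · rw [NEq.holds_map]
      exact hy q hq

end Pool.Agent.W995.TM
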