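import Mathlib
import Pool.Agent.W995.TM.Gates

set_option autoImplicit false

/-! Natural number arithmetic in the free monoid on two letters with abelian constraints. -/

namespace Pool.Agent.W995.TM

open FreeMonoid

/-- value of a word with constants `C` and variables `X` -/
def value {C X M : Type} [Monoid M] (c : C → M) (f : X → M) (w : List (C ⊕ X)) : M :=
  (w.map (Sum.elim c f)).prod

theorem value_append {C X M : Type} [Monoid M] (c : C → M) (f : X → M) (w w' : List (C ⊕ X)) :
    value c f (w ++ w') = value c f w * value c f w' := by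
  simp [value]

theorem value_map {C X M N : Type} [Monoid M] [Monoid N] (c : C → M) (f : X → M) (h : M →* N)
    (w : List (C ⊕ X)) : h (value c f w) = value (h ∘ c) (h ∘ f) w := by
  rw [value, map_list_prod, List.map_map, value]
  congr 1
  apply List.map_congr_left
  intro a _
  rcases a with a | a <;> rfl

/-- the word `a ^ x b` -/
def ub (x : ℕ) : List Bool := List.replicate x true ++ [false]

theorem comm_ub (x : ℕ) : ∀ (n : ℕ) (W : List Bool), W.length ≤ n → W ++ ub x = ub x ++ W →
    ∃ m, W = (List.replicate m (ub x)).flatten := by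
  intro n
  induction n with
  | zero =>
    intro W hW _
    refine ⟨0, ?_⟩
    rw [List.length_eq_zero_iff.1 (Nat.le_zero.1 hW)]
    rfl
  | succ n ih =>
    intro W hW h
    have key : ∀ c W : List Bool, ub x = c ++ W → W.count false = 0 → W = [] := by
      intro c W h hc
      rcases List.eq_nil_or_concat W with rfl | ⟨W', l, rfl⟩
      · rfl
      · exfalso
        have h2 : List.replicate x true ++ [false] = (c ++ W') ++ [l] := by
          rw [List.append_assoc]; simpa [ub] using h
        have h3 := List.append_inj' h2 rfl
        have h4 : l = false := by simpa using h3.2.symm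
        subst h4
        simp at hc
    have hcount : (ub x).count false = 1 := by
      simp [ub, List.count_eq_zero, List.mem_replicate]
    rcases List.append_eq_append_iff.1 h with ⟨c, h1, h2⟩ | ⟨c, h1, h2⟩
    · have h3 : W.count false + c.count false = 1 := by
        rw [← List.count_append, ← h1, hcount]
      rcases Nat.eq_zero_or_pos (W.count false) with h4 | h4
      · exact ⟨0, key c W h2 h4⟩
      · have h5 : c = [] := key W c h1 (by omega)
        refine ⟨1, ?_⟩
        subst h5
        simpa using h1.symm
    · have h4 : c ++ ub x = ub x ++ c := by rw [← h1, ← h2]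
      have h5 : 1 ≤ (ub x).length := by simp [ub]
      have h6 : W.length = (ub x).length + c.length := by rw [h1, List.length_append]
      obtain ⟨m, hm⟩ := ih c (by omega) h4
      refine ⟨m + 1, ?_⟩
      rw [List.replicate_succ, List.flatten_cons, ← hm, h1]

theorem comm_single (l : Bool) : ∀ W : List Bool, W ++ [l] = l :: W → W = List.replicate W.length l := by
  intro W
  induction W with
  | nil => intro _; rfl
  | cons c W ih =>
    intro h
    rw [List.cons_append] at h
    obtain ⟨h1, h2⟩ := List.cons.inj h
    subst h1
    rw [List.length_cons, List.replicate_succ, ← ih h2]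

/-- the letters -/
abbrev la : FreeMonoid Bool := FreeMonoid.of true
abbrev lb : FreeMonoid Bool := FreeMonoid.of false

theorem toList_of_pow (l : Bool) (n : ℕ) : toList (FreeMonoid.of l ^ n) = List.replicate n l := by
  induction n with
  | zero => rfl
  | succ n ih => rw [pow_succ', toList_mul, ih, List.replicate_succ]; rfl

theorem exists_pow_of_comm (l : Bool) (W : FreeMonoid Bool)
    (h : W * FreeMonoid.of l = FreeMonoid.of l * W) : ∃ n, W = FreeMonoid.of l ^ n := by
  have h1 : toList W ++ [l] = l :: toList W := congrArg toList h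
  refine ⟨(toList W).length, ?_⟩
  apply toList.injective
  rw [toList_of_pow]
  exact comm_single l _ h1

theorem exists_pow_of_comm_ub (x : ℕ) (W : FreeMonoid Bool)
    (h : W * (la ^ x * lb) = (la ^ x * lb) * W) : ∃ n, W = (la ^ x * lb) ^ n := by
  have e : toList (la ^ x * lb) = ub x := by
    rw [toList_mul, toList_of_pow]; rfl
  have h1 : toList W ++ ub x = ub x ++ toList W := by
    rw [← e, ← toList_mul, ← toList_mul, h]
  obtain ⟨m, hm⟩ := comm_ub x _ _ le_rfl h1
  refine ⟨m, ?_⟩
  apply toList.injective
  rw [hm]
  clear hm h1 h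
  induction m with
  | zero => rfl
  | succ m ih => rw [pow_succ', toList_mul, ← ih, List.replicate_succ, List.flatten_cons, e]

/-- the letter counts -/
def cnt : FreeMonoid Bool →* Multiplicative (Bool → ℕ) :=
  FreeMonoid.lift (fun c => Multiplicative.ofAdd (Pi.single c 1))

def ct (w : FreeMonoid Bool) : Bool → ℕ := Multiplicative.toAdd (cnt w)

theorem ct_mul (w w' : FreeMonoid Bool) : ct (w * w') = ct w + ct w' := by
  simp [ct]

theorem ct_pow (w : FreeMonoid Bool) (n : ℕ) : ct (w ^ n) = n • ct w := by
  simp [ct]

theorem ct_of (l : Bool) : ct (FreeMonoid.of l) = Pi.single l 1 := by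
  simp [ct, cnt]

section Sys

variable {V : Type}

/-- the variables of the word system -/
abbrev Vr (V : Type) : Type := V ⊕ (V × V × Fin 3)

abbrev cA : Bool ⊕ Vr V := Sum.inl true
abbrev cB : Bool ⊕ Vr V := Sum.inl false
abbrev vX (i : V) : Bool ⊕ Vr V := Sum.inr (Sum.inl i)
abbrev vY (i j : V) (t : Fin 3) : Bool ⊕ Vr V := Sum.inr (Sum.inr (i, j, t))

def wgate : NEq V → List (List (Bool ⊕ Vr V) × List (Bool ⊕ Vr V))
  | .const i c => [([vX i], List.replicate c cA)]
  | .add i j k => [([vX i, vX j], [vX k])]
  | .mul i j _ => [([vY i j 0, vX i, cB], [vX i, cB, vY i j 0]),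
      ([vY i j 1, cB], [cB, vY i j 1]), ([vY i j 2, cA, cB], [cA, cB, vY i j 2])]

def agate : NEq V → List (List (Vr V) × List (Vr V))
  | .const _ _ => []
  | .add _ _ _ => []
  | .mul i j k => [([Sum.inr (i, j, 0)], [Sum.inl k, Sum.inr (i, j, 1)]),
      ([Sum.inr (i, j, 2)], [Sum.inl j, Sum.inr (i, j, 1)])]

/-- the value of a word over the letters `a`, `b` -/
abbrev fval {X : Type} (g : X → FreeMonoid Bool) (w : List (Bool ⊕ X)) : FreeMonoid Bool :=
  value FreeMonoid.of g w

abbrev aval {X : Type} (g : X → FreeMonoid Bool) (w : List X) : Bool → ℕ :=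
  (w.map (fun x => ct (g x))).sum

theorem gate_sound (g : Vr V → FreeMonoid Bool) (x : V → ℕ) (hx : ∀ v, g (Sum.inl v) = la ^ x v)
    (q : NEq V) (h1 : ∀ e ∈ wgate q, fval g e.1 = fval g e.2)
    (h2 : ∀ e ∈ agate q, aval g e.1 = aval g e.2) : q.Holds x := by
  have hinj : ∀ m n : ℕ, la ^ m = la ^ n → m = n := by
    intro m n h
    have := congrArg (fun w => (toList w).length) h
    simpa [toList_of_pow] using this
  cases q with
  | const i c =>
    have h := h1 ([vX i], List.replicate c cA) (by simp [wgate])
    simp only [fval, value, List.map_cons, List.map_nil, List.prod_cons, List.prod_nil, mul_one,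
      Sum.elim_inr, List.map_replicate, Sum.elim_inl, List.prod_replicate, hx] at h
    exact hinj _ _ h
  | add i j k =>
    have h := h1 ([vX i, vX j], [vX k]) (by simp [wgate])
    simp only [fval, value, List.map_cons, List.map_nil, List.prod_cons, List.prod_nil, mul_one,
      Sum.elim_inr, hx, ← pow_add] at h
    exact hinj _ _ h
  | mul i j k =>
    have w1 := h1 ([vY i j 0, vX i, cB], [vX i, cB, vY i j 0]) (by simp [wgate])
    have w2 := h1 ([vY i j 1, cB], [cB, vY i j 1]) (by simp [wgate])
    have w3 := h1 ([vY i j 2, cA, cB], [cA, cB, vY i j 2]) (by simp [wgate])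
    have a1 := h2 ([Sum.inr (i, j, 0)], [Sum.inl k, Sum.inr (i, j, 1)]) (by simp [agate])
    have a2 := h2 ([Sum.inr (i, j, 2)], [Sum.inl j, Sum.inr (i, j, 1)]) (by simp [agate])
    simp only [fval, value, List.map_cons, List.map_nil, List.prod_cons, List.prod_nil, mul_one,
      Sum.elim_inr, Sum.elim_inl, hx] at w1 w2 w3
    simp only [aval, List.map_cons, List.map_nil, List.sum_cons, List.sum_nil, add_zero, hx] at a1 a2
    obtain ⟨m, hm⟩ := exists_pow_of_comm_ub (x i) _ (by rw [w1, mul_assoc])
    obtain ⟨v, hv⟩ := exists_pow_of_comm false _ w2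
    obtain ⟨t, ht⟩ := exists_pow_of_comm_ub 1 (g (Sum.inr (i, j, 2))) (by
      rw [pow_one, w3, mul_assoc])
    rw [hm, hv] at a1
    rw [ht, hv] at a2
    simp only [ct_pow, ct_mul, ct_of] at a1 a2
    have b1 := congrFun a1 true
    have b2 := congrFun a1 false
    have b3 := congrFun a2 true
    have b4 := congrFun a2 false
    simp only [Pi.add_apply, Pi.smul_apply, Pi.single_eq_same, smul_eq_mul, mul_one, ne_eq,
      Bool.true_eq_false, not_false_eq_true, Pi.single_eq_of_ne, add_zero, mul_zero, one_mul,
      Bool.false_eq_true, zero_add] at b1 b2 b3 b4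
    simp only [NEq.Holds]
    subst b2
    subst b4
    rw [← b1, ← b3]
    ring

/-- the words for given numbers -/
def wd (x : V → ℕ) : Vr V → FreeMonoid Bool
  | Sum.inl v => la ^ x v
  | Sum.inr (i, j, t) => ![(la ^ x i * lb) ^ x j, lb ^ x j, (la * lb) ^ x j] t

theorem gate_complete (x : V → ℕ) (q : NEq V) (h : q.Holds x) :
    (∀ e ∈ wgate q, fval (wd x) e.1 = fval (wd x) e.2) ∧
    (∀ e ∈ agate q, aval (wd x) e.1 = aval (wd x) e.2) := by
  cases q with
  | const i c =>
    simp only [NEq.Holds] at h
    simp [wgate, agate, value, wd, h]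
  | add i j k =>
    simp only [NEq.Holds] at h
    simp [wgate, agate, value, wd, ← pow_add, h]
  | mul i j k =>
    simp only [NEq.Holds] at h
    constructor
    · intro e he
      simp only [wgate, List.mem_cons, List.not_mem_nil, or_false] at he
      rcases he with rfl | rfl | rfl
      · simp only [fval, value, List.map_cons, List.map_nil, List.prod_cons, List.prod_nil, mul_one,
          Sum.elim_inr, Sum.elim_inl, wd, Matrix.cons_val_zero]
        have e : (la ^ x i * lb) ^ x j * (la ^ x i * lb) = (la ^ x i * lb) * (la ^ x i * lb) ^ x j := by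
          rw [← pow_succ, ← pow_succ']
        exact e.trans (mul_assoc _ _ _)
      · simp only [fval, value, List.map_cons, List.map_nil, List.prod_cons, List.prod_nil, mul_one,
          Sum.elim_inr, Sum.elim_inl, wd, Matrix.cons_val_one, Matrix.cons_val_zero]
        rw [← pow_succ, ← pow_succ']
      · simp only [fval, value, List.map_cons, List.map_nil, List.prod_cons, List.prod_nil, mul_one,
          Sum.elim_inr, Sum.elim_inl, wd, Matrix.cons_val]
        have e : (la * lb) ^ x j * (la * lb) = (la * lb) * (la * lb) ^ x j := by
          rw [← pow_succ, ← pow_succ']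
        exact e.trans (mul_assoc _ _ _)
    · intro e he
      simp only [agate, List.mem_cons, List.not_mem_nil, or_false] at he
      rcases he with rfl | rfl
      · simp only [aval, List.map_cons, List.map_nil, List.sum_cons, List.sum_nil, add_zero, wd,
          Matrix.cons_val, Matrix.cons_val_zero, Matrix.cons_val_one, ct_pow, ct_mul, ct_of]
        funext c
        cases c
        · simp
        · simp [← h, mul_comm]
      · simp only [aval, List.map_cons, List.map_nil, List.sum_cons, List.sum_nil, add_zero, wd,
          Matrix.cons_val, Matrix.cons_val_zero, Matrix.cons_val_one, ct_pow, ct_mul, ct_of]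
        funext c
        cases c <;> simp

/-- the word equations of the system of the number `n` -/
noncomputable def wsys [Fintype V] (f : V) (L : List (NEq V)) (n : ℕ) :
    List (List (Bool ⊕ Vr V) × List (Bool ⊕ Vr V)) :=
  ([vX f], List.replicate n cA) ::
    ((Finset.univ : Finset V).toList.map (fun v => ([vX v, cA], [cA, vX v])) ++ L.flatMap wgate)

/-- the abelian equations -/
def asys (L : List (NEq V)) : List (List (Vr V) × List (Vr V)) := L.flatMap agate

theorem sys_iff [Fintype V] (f : V) (L : List (NEq V)) (n : ℕ) :
    (∃ g : Vr V → FreeMonoid Bool, (∀ e ∈ wsys f L n, fval g e.1 = fval g e.2) ∧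
      (∀ e ∈ asys L, aval g e.1 = aval g e.2)) ↔
    ∃ x : V → ℕ, x f = n ∧ ∀ q ∈ L, q.Holds x := by
  constructor
  · rintro ⟨g, h1, h2⟩
    have h3 : ∀ v, ∃ m, g (Sum.inl v) = la ^ m := by
      intro v
      apply exists_pow_of_comm
      have := h1 ([vX v, cA], [cA, vX v]) (by
        rw [wsys, List.mem_cons]
        right
        rw [List.mem_append]
        left
        rw [List.mem_map]
        exact ⟨v, by simp, rfl⟩)
      simpa [fval, value] using this
    choose x hx using h3
    refine ⟨x, ?_, ?_⟩
    · have := h1 ([vX f], List.replicate n cA) (by simp [wsys])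
      have h5 : (NEq.const f n).Holds x := gate_sound g x hx (.const f n) (by
        intro e he
        simp only [wgate, List.mem_cons, List.not_mem_nil, or_false] at he
        rw [he]
        exact this) (by simp [agate])
      exact h5
    · intro q hq
      refine gate_sound g x hx q ?_ ?_
      · intro e he
        refine h1 e ?_
        rw [wsys, List.mem_cons]
        right
        rw [List.mem_append]
        right
        exact List.mem_flatMap.2 ⟨q, hq, he⟩
      · intro e he
        exact h2 e (List.mem_flatMap.2 ⟨q, hq, he⟩)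
  · rintro ⟨x, hx, hq⟩
    refine ⟨wd x, ?_, ?_⟩
    · intro e he
      rw [wsys, List.mem_cons, List.mem_append, List.mem_map, List.mem_flatMap] at he
      rcases he with rfl | ⟨v, -, rfl⟩ | ⟨q, hq', he⟩
      · exact (gate_complete x (.const f n) hx).1 _ (by simp [wgate])
      · simp only [fval, value, List.map_cons, List.map_nil, List.prod_cons, List.prod_nil, mul_one,
          Sum.elim_inr, Sum.elim_inl, wd]
        rw [← pow_succ, ← pow_succ']
      · exact (gate_complete x q (hq q hq')).1 e he
    · intro e he
      rw [asys, List.mem_flatMap] at he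
      obtain ⟨q, hq', he⟩ := he
      exact (gate_complete x q (hq q hq')).2 e he

end Sys

end Pool.Agent.W995.TM
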