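import Mathlib
import Pool.Agent.W995.TM.Words
import Pool.Agent.W995.TM.LinDec
import Pool.Agent.W995.TM.Defs

set_option autoImplicit false

namespace Pool.Agent.W995.TraceEq

open Pool.Agent.W995.TM

variable {k : ℕ} (I : Fin k → Fin k → Prop)

/-! ### the undecidable cases -/

section Neg

variable {I} (p q : Fin k)

/-- the letters `p`, `q` as images of the letters of the free monoid of rank two -/
def pq (c : Bool) : Fin k := if c then p else q

open Classical in
/-- the retraction onto the free monoid of rank two, erasing all letters but `p` and `q` -/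
noncomputable def retr (h1 : ¬ I p q) (h2 : ¬ I q p) : TraceMonoid I →* FreeMonoid Bool :=
  PresentedMonoid.lift (fun a => if a = p then FreeMonoid.of true else
    if a = q then FreeMonoid.of false else 1) (by
    rintro u v ⟨a, b, hab, rfl, rfl⟩
    simp only [map_mul, FreeMonoid.lift_eval_of]
    by_cases ha : a = p
    · subst ha
      by_cases hb : b = a
      · subst hb; rfl
      · by_cases hb2 : b = q
        · subst hb2; exact absurd hab h1
        · simp [hb, hb2]
    · by_cases ha2 : a = q
      · subst ha2
        by_cases hb : b = p
        · subst hb; exact absurd hab h2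
        · by_cases hb2 : b = a
          · subst hb2; rfl
          · simp [hb, hb2]
      · simp [ha, ha2])

/-- the inclusion of the free monoid of rank two -/
def incl : FreeMonoid Bool →* TraceMonoid I := FreeMonoid.lift (fun c => letter I (pq p q c))

variable {p q} (hpq : p ≠ q) (h1 : ¬ I p q) (h2 : ¬ I q p)

include hpq in
theorem retr_letter (c : Bool) : retr p q h1 h2 (letter I (pq p q c)) = FreeMonoid.of c := by
  unfold retr letter
  rw [PresentedMonoid.lift_of]
  cases c
  · simp [pq, hpq.symm]
  · simp [pq]

theorem counts_incl (w : FreeMonoid Bool) : counts I (incl p q w) =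
    Pi.single p (ct w true) + Pi.single q (ct w false) := by
  induction w using FreeMonoid.inductionOn' with
  | one =>
    have : ct (1 : FreeMonoid Bool) = 0 := by simp [ct]
    rw [this]
    simp [counts]
  | of_mul c w ih =>
    have e1 : counts I (incl p q (FreeMonoid.of c * w)) =
        counts I (letter I (pq p q c)) + counts I (incl p q w) := by
      unfold counts
      rw [map_mul, map_mul]
      rfl
    have e2 : counts I (letter I (pq p q c)) = Pi.single (pq p q c) 1 := rfl
    rw [e1, ih, e2, ct_mul, ct_of]
    cases c
    · simp only [pq, Pi.add_apply, Pi.single_eq_same]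
      rw [Pi.single_eq_of_ne (by decide)]
      simp only [zero_add, Bool.false_eq_true, if_false]
      rw [Pi.single_add]
      abel
    · simp only [pq, Pi.add_apply, Pi.single_eq_same]
      rw [Pi.single_eq_of_ne (by decide)]
      simp only [zero_add, if_true]
      rw [Pi.single_add]
      abel

include hpq in
theorem ct_retr (m : TraceMonoid I) (c : Bool) : ct (retr p q h1 h2 m) c =
    counts I m (pq p q c) := by
  have key : (Pi.evalAddMonoidHom (fun _ : Bool => ℕ) c).toMultiplicative.comp
      (cnt.comp (retr p q h1 h2)) =
      (Pi.evalAddMonoidHom (fun _ : Fin k => ℕ) (pq p q c)).toMultiplicative.comp (countHom I) := by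
    apply PresentedMonoid.ext
    intro a
    change Multiplicative.ofAdd (ct (retr p q h1 h2 (letter I a)) c) =
      Multiplicative.ofAdd ((Pi.single a 1 : Fin k → ℕ) (pq p q c))
    congr 1
    have : retr p q h1 h2 (letter I a) =
        if a = p then FreeMonoid.of true else if a = q then FreeMonoid.of false else 1 := by
      classical
      unfold retr letter
      rw [PresentedMonoid.lift_of]
    rw [this]
    by_cases ha : a = p
    · subst ha
      cases c
      · simp [pq, ct_of, hpq.symm]
      · simp [pq, ct_of]
    · by_cases ha2 : a = q
      · subst ha2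
        rw [if_neg ha, if_pos rfl]
        cases c
        · simp [pq, ct_of]
        · simp [pq, ct_of, hpq]
      · have h0 : ct (1 : FreeMonoid Bool) = 0 := by simp [ct]
        simp only [ha, ha2, if_false, h0, Pi.zero_apply]
        cases c
        · simp [pq, Ne.symm ha2]
        · simp [pq, Ne.symm ha]
  exact congrArg Multiplicative.toAdd (DFunLike.congr_fun key m)

/-- translation of the words -/
def trW {X : Type} (e : X → ℕ) (p q : Fin k) (w : List (Bool ⊕ X)) : List (Fin k ⊕ ℕ) :=
  w.map (Sum.map (pq p q) e)

/-- translation of the sums -/
def trS {X : Type} (e : X → ℕ) (w : List X) : List ((Fin k → ℕ) ⊕ ℕ) :=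
  w.map (fun x => Sum.inr (e x))

theorem toList_sum_apply {α X : Type} (g : X → α → ℕ) (w : List X) (a : α) :
    (w.map g).sum a = (w.map (fun x => g x a)).sum := by
  induction w with
  | nil => rfl
  | cons x w ih => simp [ih]

include hpq h1 h2 in
/-- solvability over the free monoid of rank two and over the trace monoid -/
theorem solvable_iff {X : Type} (e : X → ℕ) (d : ℕ → Option X) (hd : ∀ x, d (e x) = some x)
    (S : List (List (Bool ⊕ X) × List (Bool ⊕ X))) (T : List (List X × List X)) :
    Solvable I (S.map (fun s => (trW e p q s.1, trW e p q s.2)),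
      T.map (fun s => (trS e s.1, trS e s.2))) ↔
    ∃ g : X → FreeMonoid Bool, (∀ s ∈ S, fval g s.1 = fval g s.2) ∧
      (∀ s ∈ T, aval g s.1 = aval g s.2) := by
  constructor
  · rintro ⟨f, hf1, hf2⟩
    refine ⟨fun x => retr p q h1 h2 (f (e x)), ?_, ?_⟩
    · have key : ∀ w : List (Bool ⊕ X), retr p q h1 h2 (wordValue I f (trW e p q w)) =
          fval (fun x => retr p q h1 h2 (f (e x))) w := by
        intro w
        unfold wordValue trW fval value
        rw [map_list_prod, List.map_map, List.map_map]
        congr 1
        apply List.map_congr_left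
        intro a _
        rcases a with a | a
        · exact retr_letter hpq h1 h2 a
        · rfl
      intro s hs
      rw [← key, ← key]
      exact congrArg _ (hf1 _ (List.mem_map_of_mem hs))
    · have key : ∀ (w : List X) (c : Bool), aval (fun x => retr p q h1 h2 (f (e x))) w c =
          sumValue (fun i => counts I (f i)) (trS e w) (pq p q c) := by
        intro w c
        unfold sumValue trS aval
        rw [toList_sum_apply, toList_sum_apply, List.map_map]
        congr 1
        apply List.map_congr_left
        intro a _
        exact ct_retr hpq h1 h2 _ c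
      intro s hs
      funext c
      rw [key, key]
      exact congrFun (hf2 _ (List.mem_map_of_mem hs)) _
  · rintro ⟨g, hg1, hg2⟩
    refine ⟨fun n => (d n).elim 1 (fun x => incl p q (g x)), ?_, ?_⟩
    · have key : ∀ w : List (Bool ⊕ X),
          wordValue I (fun n => (d n).elim 1 (fun x => incl p q (g x))) (trW e p q w) =
          incl p q (fval g w) := by
        intro w
        unfold wordValue trW fval value
        rw [map_list_prod, List.map_map, List.map_map]
        congr 1
        apply List.map_congr_left
        intro a _
        rcases a with a | a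
        · simp [incl]
        · simp [hd]
      intro s hs
      rw [List.mem_map] at hs
      obtain ⟨s, hs, rfl⟩ := hs
      simp only
      rw [key, key, hg1 s hs]
    · have key : ∀ w : List X,
          sumValue (fun i => counts I ((d i).elim 1 (fun x => incl p q (g x)))) (trS e w) =
          Pi.single p (aval g w true) + Pi.single q (aval g w false) := by
        intro w
        unfold sumValue trS aval
        rw [List.map_map]
        induction w with
        | nil => simp
        | cons x w ih =>
          simp only [List.map_cons, List.sum_cons, ih, Function.comp, Sum.elim_inr, hd,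
            Option.elim_some, counts_incl, Pi.add_apply, Pi.single_add]
          abel
      intro s hs
      rw [List.mem_map] at hs
      obtain ⟨s, hs, rfl⟩ := hs
      simp only
      rw [key, key, hg2 s hs]

end Neg

/-- a set of natural numbers that is semidecidable but not decidable -/
theorem exists_re : ∃ p : ℕ → Prop, REPred p ∧ ¬ ComputablePred p := by
  refine ⟨fun n => (Nat.Partrec.Code.eval (Denumerable.ofNat Nat.Partrec.Code n) 0).Dom, ?_, ?_⟩
  · have h := ComputablePred.halting_problem_re 0
    unfold REPred at h ⊢
    exact h.comp (Computable.ofNat Nat.Partrec.Code)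
  · intro h
    apply ComputablePred.halting_problem 0
    refine ComputablePred.computable_of_manyOneReducible ?_ h
    exact ⟨Encodable.encode, Computable.encode, fun c => by simp⟩

theorem undecidable {p q : Fin k} (hpq : p ≠ q) (h1 : ¬ I p q) (h2 : ¬ I q p) :
    ¬ ComputablePred (Solvable I) := by
  obtain ⟨R, hR, hR2⟩ := exists_re
  obtain ⟨V, _, f, L, hL⟩ := exists_system R (Pool.Agent.Helper844.Dio.dprm hR)
  intro hc
  apply hR2
  classical
  obtain ⟨m, ⟨eV⟩⟩ := Finite.exists_equiv_fin V
  have : Fintype V := Fintype.ofEquiv _ eV.symm
  have : Encodable V := Encodable.ofEquiv _ eV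
  let e : Vr V → ℕ := Encodable.encode
  let d : ℕ → Option (Vr V) := Encodable.decode
  have hd : ∀ x, d (e x) = some x := fun x => Encodable.encodek x
  -- the fixed part of the system
  let W : List (List (Fin k ⊕ ℕ) × List (Fin k ⊕ ℕ)) :=
    ((Finset.univ : Finset V).toList.map (fun v => ([vX v, cA], [cA, vX v])) ++
      L.flatMap wgate).map (fun s => (trW e p q s.1, trW e p q s.2))
  let A : List (List ((Fin k → ℕ) ⊕ ℕ) × List ((Fin k → ℕ) ⊕ ℕ)) :=
    (asys L).map (fun s => (trS e s.1, trS e s.2))
  let F : ℕ → System k := fun n =>
    (([Sum.inr (e (Sum.inl f))], List.replicate n (Sum.inl p)) :: W, A)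
  have hF : Computable F := by
    have hrep : Primrec (fun n : ℕ => List.replicate n (Sum.inl p : Fin k ⊕ ℕ)) := by
      have : Primrec (fun n : ℕ => (List.range n).map (fun _ => (Sum.inl p : Fin k ⊕ ℕ))) :=
        Primrec.list_map Primrec.list_range (Primrec.const _).to₂
      exact this.of_eq (fun n => by simp)
    exact (Primrec.pair (Primrec.list_cons.comp (Primrec.pair (Primrec.const _) hrep)
      (Primrec.const W)) (Primrec.const A)).to_comp
  refine ComputablePred.computable_of_manyOneReducible ⟨F, hF, fun n => ?_⟩ hc
  rw [← hL n, ← sys_iff f L n, ← solvable_iff hpq h1 h2 e d hd]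
  have : F n = ((wsys f L n).map (fun s => (trW e p q s.1, trW e p q s.2)),
      (asys L).map (fun s => (trS e s.1, trS e s.2))) := by
    simp only [F, W, A, wsys, List.map_cons]
    congr 3
    simp [trW, pq]
  rw [this]

/-! ### the decidable case -/

section Pos

open Lin

/-- the equation for the coordinate `a` of an equation over the monoid; the coordinate `a` of the
variable `i` becomes the variable `k * i + a` -/
def coordW (a : Fin k) (w : List (Fin k ⊕ ℕ)) : Side :=
  (w.flatMap (fun s => Sum.elim (fun _ => []) (fun i => [k * i + a]) s),
    (w.map (fun s => Sum.elim (fun b => if b = a then 1 else 0) (fun _ => 0) s)).sum)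

def coordS (a : Fin k) (w : List ((Fin k → ℕ) ⊕ ℕ)) : Side :=
  (w.flatMap (fun s => Sum.elim (fun _ => []) (fun i => [k * i + a]) s),
    (w.map (fun s => Sum.elim (fun b => b a) (fun _ => 0) s)).sum)

def coords (S : System k) : List (Side × Side) :=
  (List.finRange k).flatMap (fun a => S.1.map (fun e => (coordW a e.1, coordW a e.2)) ++
    S.2.map (fun e => (coordS a e.1, coordS a e.2)))

theorem coordW_val (a : Fin k) (w : List (Fin k ⊕ ℕ)) (f : ℕ → TraceMonoid I) (x : ℕ → ℕ)
    (hx : ∀ i (a : Fin k), x (k * i + a) = counts I (f i) a) :
    sideVal x (coordW a w) = counts I (wordValue I f w) a := by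
  unfold wordValue sideVal coordW
  induction w with
  | nil => simp [counts]
  | cons s w ih =>
    simp only [List.map_cons, List.prod_cons, List.sum_cons]
    have e1 : ∀ m m' : TraceMonoid I, counts I (m * m') a = counts I m a + counts I m' a := by
      intro m m'
      unfold counts
      rw [map_mul]
      rfl
    rw [e1, ← ih]
    rcases s with b | i
    · have : counts I (letter I b) a = if b = a then 1 else 0 := by
        change (Pi.single b 1 : Fin k → ℕ) a = _
        by_cases hb : b = a
        · subst hb; simp
        · rw [Pi.single_eq_of_ne (Ne.symm hb), if_neg hb]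
      simp only [List.flatMap_cons, Sum.elim_inl, List.nil_append, List.map_cons, List.sum_cons, this]
      ring
    · simp only [List.flatMap_cons, Sum.elim_inr, List.map_append, List.map_cons, List.map_nil,
        List.sum_cons, List.sum_append, List.sum_nil, hx]
      ring

theorem coordS_val (a : Fin k) (w : List ((Fin k → ℕ) ⊕ ℕ)) (g : ℕ → Fin k → ℕ) (x : ℕ → ℕ)
    (hx : ∀ i (a : Fin k), x (k * i + a) = g i a) :
    sideVal x (coordS a w) = sumValue g w a := by
  unfold sumValue sideVal coordS
  rw [toList_sum_apply]
  induction w with
  | nil => simp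
  | cons s w ih =>
    simp only [List.map_cons, List.sum_cons]
    rw [← ih]
    rcases s with b | i
    · simp only [List.flatMap_cons, Sum.elim_inl, List.nil_append, List.map_cons, List.sum_cons, id]
      ring
    · simp only [List.flatMap_cons, Sum.elim_inr, List.map_append, List.map_cons, List.map_nil,
        List.sum_cons, List.sum_append, List.sum_nil, hx]
      ring

/-- in the free commutative case an element is determined by its letter counts -/
theorem counts_injective (h : ∀ a b, a ≠ b → I a b) : Function.Injective (counts I) := by
  have hcomm : ∀ m m' : TraceMonoid I, m * m' = m' * m := by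
    have h0 : ∀ a b : Fin k, letter I a * letter I b = letter I b * letter I a := by
      intro a b
      by_cases hab : a = b
      · rw [hab]
      · exact PresentedMonoid.mk_eq_mk_of_rel ⟨a, b, h a b hab, rfl, rfl⟩
    have h1 : ∀ (a : Fin k) (m' : TraceMonoid I), letter I a * m' = m' * letter I a := by
      intro a m'
      obtain ⟨w, rfl⟩ := PresentedMonoid.surjective_mk m'
      induction w using FreeMonoid.inductionOn' with
      | one => simp
      | of_mul b w ih =>
        have : PresentedMonoid.mk (CommRel I) (FreeMonoid.of b) = letter I b := rfl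
        rw [map_mul, this, ← mul_assoc, h0, mul_assoc, ih, mul_assoc]
    intro m m'
    obtain ⟨w, rfl⟩ := PresentedMonoid.surjective_mk m
    induction w using FreeMonoid.inductionOn' with
    | one => simp
    | of_mul b w ih =>
      have : PresentedMonoid.mk (CommRel I) (FreeMonoid.of b) = letter I b := rfl
      rw [map_mul, this, mul_assoc, ih, ← mul_assoc, h1, mul_assoc]
  -- the normal form
  let C : CommMonoid (TraceMonoid I) := { (inferInstance : Monoid (TraceMonoid I)) with
    mul_comm := hcomm }
  have key : ∀ m : TraceMonoid I, m = (Finset.univ : Finset (Fin k)).prod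
      (fun a => letter I a ^ counts I m a) := by
    intro m
    obtain ⟨w, rfl⟩ := PresentedMonoid.surjective_mk m
    induction w using FreeMonoid.inductionOn' with
    | one => simp [counts]
    | of_mul b w ih =>
      have e1 : ∀ a, counts I (PresentedMonoid.mk (CommRel I) (FreeMonoid.of b * w)) a =
          (if a = b then 1 else 0) + counts I (PresentedMonoid.mk (CommRel I) w) a := by
        intro a
        unfold counts
        rw [map_mul, map_mul]
        change (Pi.single b 1 : Fin k → ℕ) a + _ = _
        congr 1
        by_cases hb : a = b
        · subst hb; simp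
        · rw [Pi.single_eq_of_ne hb, if_neg hb]
      simp only [e1, pow_add]
      rw [Finset.prod_mul_distrib, ← ih, map_mul]
      congr 1
      have : ∀ a, letter I a ^ (if a = b then 1 else 0) = if a = b then letter I b else 1 := by
        intro a
        by_cases hb : a = b
        · subst hb; simp
        · simp [hb]
      simp only [this]
      rw [Finset.prod_ite_eq' Finset.univ b]
      simp
      rfl
  intro m m' hm
  rw [key m, key m', hm]

theorem counts_surjective : Function.Surjective (counts I) := by
  intro v
  have e1 : ∀ m m' : TraceMonoid I, counts I (m * m') = counts I m + counts I m' := by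
    intro m m'
    unfold counts
    rw [map_mul]
    rfl
  have e2 : ∀ (a : Fin k) (n : ℕ), counts I (letter I a ^ n) = Pi.single a n := by
    intro a n
    induction n with
    | zero => simp [counts]
    | succ n ih =>
      rw [pow_succ, e1, ih]
      change _ + (Pi.single a 1 : Fin k → ℕ) = _
      rw [← Pi.single_add]
  have key : ∀ l : List (Fin k), counts I (l.map (fun a => letter I a ^ v a)).prod =
      (l.map (fun a => (Pi.single a (v a) : Fin k → ℕ))).sum := by
    intro l
    induction l with
    | nil => simp [counts]
    | cons a l ih => rw [List.map_cons, List.prod_cons, e1, e2, ih, List.map_cons, List.sum_cons]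
  refine ⟨((List.finRange k).map (fun a => letter I a ^ v a)).prod, ?_⟩
  rw [key]
  have : ((List.finRange k).map (fun a => (Pi.single a (v a) : Fin k → ℕ))).sum =
      ∑ a : Fin k, (Pi.single a (v a) : Fin k → ℕ) := by
    rw [← List.ofFn_eq_map, List.sum_ofFn]
  rw [this]
  exact Finset.univ_sum_single v

theorem solvable_iff_lin (h : ∀ a b, a ≠ b → I a b) (S : System k) :
    Solvable I S ↔ LinSolv (coords S) := by
  constructor
  · rintro ⟨f, h1, h2⟩
    rcases Nat.eq_zero_or_pos k with hk | hk
    · subst hk
      exact ⟨fun _ => 0, by simp [coords]⟩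
    refine ⟨fun n => counts I (f (n / k)) ⟨n % k, Nat.mod_lt _ hk⟩, ?_⟩
    have hx : ∀ i (a : Fin k), (fun n => counts I (f (n / k)) ⟨n % k, Nat.mod_lt _ hk⟩)
        (k * i + a) = counts I (f i) a := by
      intro i a
      have e1 : (k * i + a) / k = i := by
        rw [Nat.mul_add_div hk, Nat.div_eq_of_lt a.2, add_zero]
      have e2 : (k * i + a) % k = a := by
        rw [Nat.mul_add_mod, Nat.mod_eq_of_lt a.2]
      simp only [e1, e2]
    intro e he
    simp only [coords, List.mem_flatMap, List.mem_append, List.mem_map] at he
    obtain ⟨a, -, ⟨e, he, rfl⟩ | ⟨e, he, rfl⟩⟩ := he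
    · simp only
      rw [coordW_val I a _ f _ hx, coordW_val I a _ f _ hx, h1 e he]
    · simp only
      rw [coordS_val a _ (fun i => counts I (f i)) _ hx,
        coordS_val a _ (fun i => counts I (f i)) _ hx, h2 e he]
  · rintro ⟨x, hx⟩
    choose f hf using fun i => counts_surjective I (fun a => x (k * i + a))
    have hxx : ∀ i (a : Fin k), x (k * i + a) = counts I (f i) a := fun i a => by rw [hf]
    refine ⟨f, ?_, ?_⟩
    · intro e he
      apply counts_injective I h
      funext a
      rw [← coordW_val I a _ f x hxx, ← coordW_val I a _ f x hxx]
      exact hx (coordW a e.1, coordW a e.2) (by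
        simp only [coords, List.mem_flatMap, List.mem_append, List.mem_map]
        exact ⟨a, List.mem_finRange a, Or.inl ⟨e, he, rfl⟩⟩)
    · intro e he
      funext a
      rw [← coordS_val a _ (fun i => counts I (f i)) x hxx,
        ← coordS_val a _ (fun i => counts I (f i)) x hxx]
      exact hx (coordS a e.1, coordS a e.2) (by
        simp only [coords, List.mem_flatMap, List.mem_append, List.mem_map]
        exact ⟨a, List.mem_finRange a, Or.inr ⟨e, he, rfl⟩⟩)

theorem primrec_coordW (a : Fin k) : Primrec (coordW a) := by
  unfold coordW
  refine Primrec.pair ?_ ?_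
  · refine Primrec.list_flatMap Primrec.id ?_
    have : Primrec (fun s : Fin k ⊕ ℕ => Sum.elim (fun _ => []) (fun i => [k * i + (a : ℕ)]) s) := by
      refine (Primrec.sumCasesOn (f := fun s : Fin k ⊕ ℕ => s) (g := fun _ _ => ([] : List ℕ))
        (h := fun _ i => [k * i + (a : ℕ)]) Primrec.id (Primrec.const []).to₂ ?_).of_eq ?_
      · exact (Primrec.list_cons.comp (Primrec.nat_add.comp (Primrec.nat_mul.comp
          (Primrec.const k) Primrec.snd) (Primrec.const _)) (Primrec.const [])).to₂
      · intro s; cases s <;> rfl
    exact (this.comp Primrec.snd).to₂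
  · refine primrec_sum.comp (Primrec.list_map Primrec.id ?_)
    have : Primrec (fun s : Fin k ⊕ ℕ =>
        Sum.elim (fun b => if b = a then 1 else 0) (fun _ => 0) s) := by
      refine (Primrec.sumCasesOn (f := fun s : Fin k ⊕ ℕ => s)
        (g := fun _ b => if b = a then 1 else 0)
        (h := fun _ _ => 0) Primrec.id ?_ (Primrec.const 0).to₂).of_eq ?_
      · exact (Primrec.ite (Primrec.eq.comp Primrec.snd (Primrec.const a)) (Primrec.const 1)
          (Primrec.const 0)).to₂
      · intro s; cases s <;> rfl
    exact (this.comp Primrec.snd).to₂

theorem primrec_coordS (a : Fin k) : Primrec (coordS a) := by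
  unfold coordS
  refine Primrec.pair ?_ ?_
  · refine Primrec.list_flatMap Primrec.id ?_
    have : Primrec (fun s : (Fin k → ℕ) ⊕ ℕ =>
        Sum.elim (fun _ => []) (fun i => [k * i + (a : ℕ)]) s) := by
      refine (Primrec.sumCasesOn (f := fun s : (Fin k → ℕ) ⊕ ℕ => s)
        (g := fun _ _ => ([] : List ℕ))
        (h := fun _ i => [k * i + (a : ℕ)]) Primrec.id (Primrec.const []).to₂ ?_).of_eq ?_
      · exact (Primrec.list_cons.comp (Primrec.nat_add.comp (Primrec.nat_mul.comp
          (Primrec.const k) Primrec.snd) (Primrec.const _)) (Primrec.const [])).to₂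
      · intro s; cases s <;> rfl
    exact (this.comp Primrec.snd).to₂
  · refine primrec_sum.comp (Primrec.list_map Primrec.id ?_)
    have : Primrec (fun s : (Fin k → ℕ) ⊕ ℕ =>
        Sum.elim (fun b => b a) (fun _ => 0) s) := by
      refine (Primrec.sumCasesOn (f := fun s : (Fin k → ℕ) ⊕ ℕ => s)
        (g := fun _ b => b a)
        (h := fun _ _ => 0) Primrec.id ?_ (Primrec.const 0).to₂).of_eq ?_
      · exact (Primrec.fin_app.comp Primrec.snd (Primrec.const a)).to₂
      · intro s; cases s <;> rfl
    exact (this.comp Primrec.snd).to₂

theorem primrec_coords : Primrec (coords (k := k)) := by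
  have key : ∀ l : List (Fin k), Primrec (fun S : System k => l.flatMap (fun a =>
      S.1.map (fun e => (coordW a e.1, coordW a e.2)) ++
      S.2.map (fun e => (coordS a e.1, coordS a e.2)))) := by
    intro l
    induction l with
    | nil => exact Primrec.const []
    | cons a l ih =>
      simp only [List.flatMap_cons]
      refine Primrec.list_append.comp (Primrec.list_append.comp ?_ ?_) ih
      · exact Primrec.list_map Primrec.fst (Primrec.pair
          ((primrec_coordW a).comp (Primrec.fst.comp Primrec.snd))
          ((primrec_coordW a).comp (Primrec.snd.comp Primrec.snd))).to₂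
      · exact Primrec.list_map Primrec.snd (Primrec.pair
          ((primrec_coordS a).comp (Primrec.fst.comp Primrec.snd))
          ((primrec_coordS a).comp (Primrec.snd.comp Primrec.snd))).to₂
  exact key _

theorem decidable_case (h : ∀ a b, a ≠ b → I a b) : ComputablePred (Solvable I) := by
  refine ComputablePred.computable_of_manyOneReducible
    ⟨coords, primrec_coords.to_comp, fun S => solvable_iff_lin I h S⟩ linSolv_computable

end Pos

theorem classification (k : ℕ) (I : Fin k → Fin k → Prop) (hI : ∀ a b, I a b → I b a) :
    ComputablePred (Solvable I) ↔ ∀ a b, a ≠ b → I a b := by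
  constructor
  · intro hc p q hpq
    by_contra h1
    exact undecidable I hpq h1 (fun h => h1 (hI _ _ h)) hc
  · exact decidable_case I

end Pool.Agent.W995.TraceEq
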